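import Pool.Agent.Helper30.Full.Car

/-!
# Configurations in a module with an action of `ℤ_p^d`
-/

set_option autoImplicit false
set_option linter.unusedSectionVars false

namespace Pool.Agent.Helper30.Full

universe u

noncomputable section

section

variable {p : ℕ} [Fact p.Prime] {d : ℕ} {M : Type u} [AddCommGroup M] [TopologicalSpace M]

/-- the carrier of an action -/
abbrev carM (b : Act p d M) : Car.{0, u} where
  A := Fin d → ℤ_[p]
  X := M
  act k x := b.σ k x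
  T k x := b.T k x
  sub x y := x - y
  pX x := p • x
  pA k := p • k

/-- a valid configuration: a submodule `S` of `ℤ_p^d` and a closed invariant section `X1 / X2` -/
structure VC (b : Act p d M) where
  S : Submodule ℤ_[p] (Fin d → ℤ_[p])
  X1 : AddSubgroup M
  X2 : AddSubgroup M
  le : X2 ≤ X1
  c1 : IsClosed (X1 : Set M)
  c2 : IsClosed (X2 : Set M)
  i1 : ∀ k, ∀ x ∈ X1, b.σ k x ∈ X1
  i2 : ∀ k, ∀ x ∈ X2, b.σ k x ∈ X2

variable {b : Act p d M}

/-- the underlying predicates -/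
def VC.cf (c : VC b) : Cf (carM b) where
  S k := k ∈ c.S
  X1 x := x ∈ c.X1
  X2 x := x ∈ c.X2

/-- `c` can be reached from `c₀` by a program -/
def Reach (c₀ c : VC b) : Prop := ∃ l : List (Op × (Fin d → ℤ_[p]) × M),
  c.cf = run (C := carM b) l c₀.cf

/-! ### properties of configurations -/

/-- `k` acts trivially on `X1 / X2` -/
def cTriv (c : VC b) (k : Fin d → ℤ_[p]) : Prop := ∀ x ∈ c.X1, b.T k x ∈ c.X2

/-- `k` is small on `X1 / X2` -/
def cSmall (c : VC b) (k : Fin d → ℤ_[p]) : Prop :=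
  ∃ i n : ℕ, ∀ x ∈ c.X1, ∃ y ∈ c.X1, (b.T k ^ n) (p ^ i • x) - p ^ (i + 1) • y ∈ c.X2

/-- `k` is unbounded on `X1 / X2` -/
def cUnb (c : VC b) (k : Fin d → ℤ_[p]) : Prop :=
  ∀ n : ℕ, ∃ x ∈ c.X1, (b.T k ^ (n + 1)) x ∈ c.X2 ∧ (b.T k ^ n) x ∉ c.X2

/-- minimal configurations killed by `p` -/
structure HypEs (c : VC b) : Prop where
  kill : ∀ x ∈ c.X1, p • x ∈ c.X2
  tf : ∀ k ∈ c.S, cTriv c (p • k) → cTriv c k
  ex : ∃ k ∈ c.S, ¬ cTriv c k
  dom : ∀ u ∈ c.S, ¬ cTriv c u → ∃ m : ℕ, ∀ k ∈ c.S,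
    (∀ x ∈ c.X1, ∃ y ∈ c.X1, b.T (p ^ m • k) x - b.T u y ∈ c.X2) ∧
    ∀ x ∈ c.X1, b.T u x ∈ c.X2 → b.T (p ^ m • k) x ∈ c.X2
  unb : ∀ u ∈ c.S, ¬ cTriv c u → cUnb c u

/-- minimal configurations with an element which is not small -/
structure HypWs (c : VC b) : Prop where
  tf : ∀ k ∈ c.S, cTriv c (p • k) → cTriv c k
  big : ∃ g ∈ c.S, ¬ cSmall c g
  dom : ∀ u ∈ c.S, ¬ cSmall c u → ∃ m : ℕ, ∀ k ∈ c.S,
    ∀ x ∈ c.X1, ∃ y ∈ c.X1, b.T (p ^ m • k) x - b.T u y ∈ c.X2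
  sm2 : ∀ h ∈ c.S, cSmall c h → ∀ x ∈ c.X1, ∃ y ∈ c.X1, b.T h x - p ^ 2 • y ∈ c.X2
  quo : ∀ h ∈ c.S, ¬ cTriv c h → ∀ g ∈ c.S, ∃ i n : ℕ, ∀ x ∈ c.X1, ∃ y ∈ c.X1, ∃ z ∈ c.X1,
    (b.T g ^ n) (p ^ i • x) - p ^ (i + 1) • y - b.T h z ∈ c.X2
  bdd : ∀ g ∈ c.S, ∀ i : ℕ, ∃ n : ℕ, ∀ x ∈ c.X1,
    (∃ y ∈ c.X1, (b.T g ^ (n + 1)) (p ^ i • x) - p ^ (i + 1) • y ∈ c.X2) →
    ∃ y ∈ c.X1, (b.T g ^ n) (p ^ i • x) - p ^ (i + 1) • y ∈ c.X2

end

/-! ### the operations preserve validity -/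

section

variable {p : ℕ} [Fact p.Prime] {d : ℕ} {M : Type u} [AddCommGroup M] [TopologicalSpace M]
  [IsTopologicalAddGroup M] [CompactSpace M] [T2Space M] {b : Act p d M}

/-- the sum of two closed subgroups is closed -/
lemma closed_sup' {A B : AddSubgroup M} (hA : IsClosed (A : Set M))
    (hB : IsClosed (B : Set M)) : IsClosed ((A ⊔ B : AddSubgroup M) : Set M) := by
  have h1 : ((A ⊔ B : AddSubgroup M) : Set M) =
      (fun x : M × M => x.1 + x.2) '' ((A : Set M) ×ˢ (B : Set M)) := by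
    ext v
    simp only [SetLike.mem_coe, Set.mem_image, Set.mem_prod, Prod.exists]
    rw [AddSubgroup.mem_sup]
    constructor
    · rintro ⟨a, ha, b, hb, h⟩; exact ⟨a, b, ⟨ha, hb⟩, h⟩
    · rintro ⟨a, b, ⟨ha, hb⟩, h⟩; exact ⟨a, ha, b, hb, h⟩
  rw [h1]
  exact ((hA.isCompact.prod hB.isCompact).image (by fun_prop)).isClosed

/-- `f(X1) + X2` for an endomorphism `f` -/
def imS (c : VC b) (f : AddMonoid.End M) : AddSubgroup M := c.X1.map f ⊔ c.X2

lemma mem_imS {c : VC b} {f : AddMonoid.End M} {x : M} :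
    x ∈ imS c f ↔ ∃ y ∈ c.X1, x - f y ∈ c.X2 := by
  unfold imS
  rw [AddSubgroup.mem_sup]
  constructor
  · rintro ⟨_, ⟨y, hy, rfl⟩, z, hz, rfl⟩
    have e : f y + z - f y = z := by abel
    exact ⟨y, hy, (congrArg (· ∈ c.X2) e).mpr hz⟩
  · rintro ⟨y, hy, h⟩
    exact ⟨f y, ⟨y, hy, rfl⟩, x - f y, h, by abel⟩

lemma closed_imS (c : VC b) {f : AddMonoid.End M} (hf : Continuous fun x : M => f x) :
    IsClosed (imS c f : Set M) := by
  refine closed_sup' ?_ c.c2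
  have : ((c.X1.map f : AddSubgroup M) : Set M) = (fun x : M => f x) '' (c.X1 : Set M) := rfl
  rw [this]
  exact (c.c1.isCompact.image hf).isClosed

lemma inv_imS (c : VC b) {f : AddMonoid.End M} (hf : ∀ k x, b.σ k (f x) = f (b.σ k x)) :
    ∀ k, ∀ x ∈ imS c f, b.σ k x ∈ imS c f := by
  intro k x hx
  rw [mem_imS] at hx ⊢
  obtain ⟨y, hy, h⟩ := hx
  exact ⟨b.σ k y, c.i1 k y hy, by rw [← hf, ← map_sub]; exact c.i2 k _ h⟩

lemma X2_le_imS (c : VC b) (f : AddMonoid.End M) : c.X2 ≤ imS c f := le_sup_right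

lemma cf_ext {C C' : Cf (carM b)} (h1 : ∀ k, C.S k ↔ C'.S k) (h2 : ∀ x, C.X1 x ↔ C'.X1 x)
    (h3 : ∀ x, C.X2 x ↔ C'.X2 x) : C = C' := by
  cases C; cases C'
  simp only at h1 h2 h3
  congr 1
  · funext k; exact propext (h1 k)
  · funext k; exact propext (h2 k)
  · funext k; exact propext (h3 k)

lemma T_in_X1 (c : VC b) (k : Fin d → ℤ_[p]) {x : M} (hx : x ∈ c.X1) : b.T k x ∈ c.X1 :=
  c.X1.sub_mem (c.i1 k x hx) hx

lemma T_in_X2 (c : VC b) (k : Fin d → ℤ_[p]) {x : M} (hx : x ∈ c.X2) : b.T k x ∈ c.X2 :=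
  c.X2.sub_mem (c.i2 k x hx) hx

/-- stabiliser -/
def VC.stab (c : VC b) (u : Fin d → ℤ_[p]) (x : M) : VC b :=
  { c with
    S := c.S ⊓ subm b {x} (imS c (b.T u)) (closed_imS c (cont_T b u))
      (inv_imS c (fun k x => (T_comm_σ_apply b u k x).symm)) }

lemma VC.mem_stab {c : VC b} {u : Fin d → ℤ_[p]} {x : M} {k : Fin d → ℤ_[p]} :
    k ∈ (c.stab u x).S ↔ k ∈ c.S ∧ ∃ y ∈ c.X1, b.T k x - b.T u y ∈ c.X2 := by
  show k ∈ c.S ⊓ subm b {x} _ _ _ ↔ _
  rw [Submodule.mem_inf, mem_subm]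
  simp only [Set.mem_singleton_iff, forall_eq, mem_imS]

/-- quotient by the image of `T_u` -/
def VC.quo (c : VC b) (u : Fin d → ℤ_[p]) : VC b :=
  { c with
    X2 := imS c (b.T u)
    le := by
      intro x hx
      obtain ⟨y, hy, h⟩ := mem_imS.1 hx
      have := c.X1.add_mem (c.le h) (T_in_X1 c u hy)
      rwa [sub_add_cancel] at this
    c2 := closed_imS c (cont_T b u)
    i2 := inv_imS c (fun k x => (T_comm_σ_apply b u k x).symm) }

/-- the kernel of `T_u` -/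
def VC.ker (c : VC b) (u : Fin d → ℤ_[p]) : VC b :=
  { c with
    X1 := c.X1 ⊓ c.X2.comap (b.T u)
    le := fun x hx => ⟨c.le hx, T_in_X2 c u hx⟩
    c1 := by
      rw [AddSubgroup.coe_inf]
      exact c.c1.inter (c.c2.preimage (cont_T b u))
    i1 := fun k x hx => ⟨c.i1 k x hx.1, by
      show b.T u (b.σ k x) ∈ c.X2
      rw [T_comm_σ_apply]; exact c.i2 k _ hx.2⟩ }

lemma VC.mem_ker {c : VC b} {u : Fin d → ℤ_[p]} {x : M} :
    x ∈ (c.ker u).X1 ↔ x ∈ c.X1 ∧ b.T u x ∈ c.X2 := Iff.rfl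

/-- multiplication by `p` as an endomorphism -/
def mulp (p : ℕ) (M : Type u) [AddCommGroup M] : AddMonoid.End M := (p : AddMonoid.End M)

omit [Fact p.Prime] [TopologicalSpace M] [IsTopologicalAddGroup M] [CompactSpace M] [T2Space M] in
lemma mulp_apply (x : M) : mulp p M x = p • x := by
  unfold mulp
  rw [← nsmul_one]; rfl

lemma cont_mulp : Continuous fun x : M => mulp p M x := by
  simp only [mulp_apply]
  exact continuous_nsmul p

/-- the subgroup `p X1 + X2` -/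
def VC.pm (c : VC b) : VC b :=
  { c with
    X1 := imS c (mulp p M)
    le := X2_le_imS c _
    c1 := closed_imS c cont_mulp
    i1 := inv_imS c (fun k x => by rw [mulp_apply, mulp_apply, map_nsmul]) }

lemma VC.mem_pm {c : VC b} {x : M} : x ∈ c.pm.X1 ↔ ∃ y ∈ c.X1, x - p • y ∈ c.X2 := by
  show x ∈ imS c (mulp p M) ↔ _
  rw [mem_imS]
  simp only [mulp_apply]

/-- the quotient by `p X1` -/
def VC.sect (c : VC b) : VC b :=
  { c with
    X2 := imS c (mulp p M)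
    le := by
      intro x hx
      obtain ⟨y, hy, h⟩ := mem_imS.1 hx
      rw [mulp_apply] at h
      have := c.X1.add_mem (c.le h) (c.X1.nsmul_mem hy p)
      rwa [sub_add_cancel] at this
    c2 := closed_imS c cont_mulp
    i2 := inv_imS c (fun k x => by rw [mulp_apply, mulp_apply, map_nsmul]) }

lemma VC.mem_sect {c : VC b} {x : M} : x ∈ c.sect.X2 ↔ ∃ y ∈ c.X1, x - p • y ∈ c.X2 := by
  show x ∈ imS c (mulp p M) ↔ _
  rw [mem_imS]
  simp only [mulp_apply]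

/-- the submodule `p S` -/
def VC.pow (c : VC b) : VC b :=
  { c with
    S := c.S.map (LinearMap.lsmul ℤ_[p] (Fin d → ℤ_[p]) (p : ℤ_[p])) }

lemma VC.mem_pow {c : VC b} {k : Fin d → ℤ_[p]} : k ∈ c.pow.S ↔ ∃ h ∈ c.S, k = p • h := by
  show k ∈ c.S.map _ ↔ _
  rw [Submodule.mem_map]
  constructor
  · rintro ⟨h, hh, rfl⟩
    refine ⟨h, hh, ?_⟩
    rw [LinearMap.lsmul_apply, Nat.cast_smul_eq_nsmul]
  · rintro ⟨h, hh, rfl⟩
    refine ⟨h, hh, ?_⟩
    rw [LinearMap.lsmul_apply, Nat.cast_smul_eq_nsmul]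

/-- the operation on valid configurations -/
def VC.ap (c : VC b) : Op → (Fin d → ℤ_[p]) → M → VC b
  | .stab, u, x => c.stab u x
  | .quo, u, _ => c.quo u
  | .ker, u, _ => c.ker u
  | .pm, _, _ => c.pm
  | .sect, _, _ => c.sect
  | .pow, _, _ => c.pow

theorem VC.cf_ap (c : VC b) (o : Op) (u : Fin d → ℤ_[p]) (x : M) :
    (c.ap o u x).cf = Op.ap (C := carM b) o u x c.cf := by
  cases o with
  | stab => exact cf_ext (fun k => VC.mem_stab) (fun x => Iff.rfl) (fun x => Iff.rfl)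
  | quo => exact cf_ext (fun k => Iff.rfl) (fun x => Iff.rfl) (fun x => mem_imS)
  | ker => exact cf_ext (fun k => Iff.rfl) (fun x => Iff.rfl) (fun x => Iff.rfl)
  | pm =>
    refine cf_ext (fun k => Iff.rfl) (fun x => ?_) (fun x => Iff.rfl)
    show x ∈ c.pm.X1 ↔ x ∈ c.X1 ∧ ∃ y, y ∈ c.X1 ∧ x - p • y ∈ c.X2
    rw [VC.mem_pm]
    constructor
    · rintro ⟨y, hy, h⟩
      refine ⟨?_, y, hy, h⟩
      have := c.X1.add_mem (c.le h) (c.X1.nsmul_mem hy p)
      rwa [sub_add_cancel] at this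
    · exact fun h => h.2
  | sect => exact cf_ext (fun k => Iff.rfl) (fun x => Iff.rfl) (fun x => VC.mem_sect)
  | pow => exact cf_ext (fun k => VC.mem_pow) (fun x => Iff.rfl) (fun x => Iff.rfl)

/-- execution of a program on valid configurations -/
def VC.run : List (Op × (Fin d → ℤ_[p]) × M) → VC b → VC b
  | [], c => c
  | o :: l, c => VC.run l (c.ap o.1 o.2.1 o.2.2)

theorem VC.cf_run (l : List (Op × (Fin d → ℤ_[p]) × M)) (c : VC b) :
    (VC.run l c).cf = Full.run (C := carM b) l c.cf := by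
  induction l generalizing c with
  | nil => rfl
  | cons o l ih =>
    show (VC.run l (c.ap o.1 o.2.1 o.2.2)).cf = _
    rw [ih, VC.cf_ap]; rfl

lemma run_append (l l' : List (Op × (Fin d → ℤ_[p]) × M)) (c : Cf (carM b)) :
    run (C := carM b) (l ++ l') c = run (C := carM b) l' (run (C := carM b) l c) := by
  induction l generalizing c with
  | nil => rfl
  | cons o l ih => exact ih _

lemma Reach.refl (c : VC b) : Reach c c := ⟨[], rfl⟩

lemma Reach.trans {c c' c'' : VC b} (h : Reach c c') (h' : Reach c' c'') : Reach c c'' := by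
  obtain ⟨l, hl⟩ := h
  obtain ⟨l', hl'⟩ := h'
  exact ⟨l ++ l', by rw [run_append, ← hl, hl']⟩

lemma Reach.ap {c c' : VC b} (h : Reach c c') (o : Op) (u : Fin d → ℤ_[p]) (x : M) :
    Reach c (c'.ap o u x) := h.trans ⟨[(o, u, x)], VC.cf_ap c' o u x⟩

lemma Reach.stab {c c' : VC b} (h : Reach c c') (u : Fin d → ℤ_[p]) (x : M) :
    Reach c (c'.stab u x) := h.ap .stab u x

lemma Reach.quo {c c' : VC b} (h : Reach c c') (u : Fin d → ℤ_[p]) : Reach c (c'.quo u) :=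
  h.ap .quo u 0

lemma Reach.ker {c c' : VC b} (h : Reach c c') (u : Fin d → ℤ_[p]) : Reach c (c'.ker u) :=
  h.ap .ker u 0

lemma Reach.pm {c c' : VC b} (h : Reach c c') : Reach c c'.pm := h.ap .pm 0 0

lemma Reach.sect {c c' : VC b} (h : Reach c c') : Reach c c'.sect := h.ap .sect 0 0

lemma Reach.pow {c c' : VC b} (h : Reach c c') : Reach c c'.pow := h.ap .pow 0 0

end

end

end Pool.Agent.Helper30.Full
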