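import Pool.Agent.Helper30.Full.GoalsL
import Pool.Agent.Helper30.Full.Conf
import Pool.Agent.Helper85.ProC.Act

/-!
# Statements of the group theoretic building blocks
-/

set_option autoImplicit false

namespace Pool.Agent.Helper30.Full

open Pool.Agent.Helper85.ProP Pool.Agent.Helper30.ProP Pool.Agent.Helper85.ProC

universe u

section

variable {G : Type u} [Group G] [TopologicalSpace G]

/-- a series of closed normal subgroups from `Z` to the whole group, of length `n`, with abelian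
factors which are of exponent `p` or topologically finitely generated -/
def FES (p : ℕ) (Z : Subgroup G) (n : ℕ) : Prop :=
  ∃ N : ℕ → Subgroup G, N 0 = Z ∧ N n = ⊤ ∧ (∀ i, (N i).Normal ∧ IsClosed (N i : Set G)) ∧
    ∀ i < n, N i ≤ N (i + 1) ∧ (∀ a ∈ N (i + 1), ∀ b ∈ N (i + 1), cm a b ∈ N i) ∧
      ((∀ a ∈ N (i + 1), a ^ p ∈ N i) ∨ FGmod (N i) (N (i + 1)))

/-- the `p ^ e`-th powers of the elements of `Z` are contained in a subgroup which is topologically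
generated by finitely many elements of `Z` modulo `Y` -/
def PFG (p e : ℕ) (Y Z : Subgroup G) : Prop :=
  ∃ F : Finset G, (F : Set G) ⊆ (Z : Set G) ∧ ∀ H : Subgroup G, IsClosed (H : Set G) → Y ≤ H →
    (F : Set G) ⊆ (H : Set G) → ∀ z ∈ Z, z ^ p ^ e ∈ H

end

/-- CE: the centralising lemma. -/
def StmtCE : Prop :=
  ∀ (p : ℕ) [Fact p.Prime] (G : Type u) [Group G] [TopologicalSpace G] [IsTopologicalGroup G]
    [CompactSpace G] [T2Space G] [TotallyDisconnectedSpace G], PP p G → FGG G →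
    ∀ Y Z : Subgroup G, Y.Normal → IsClosed (Y : Set G) → Z.Normal → IsClosed (Z : Set G) →
      Y ≤ Z → (∀ z ∈ Z, ∀ g : G, cm z g ∈ Y) → ∀ n : ℕ, FES p Z n → PFG p (2 * n) Y Z

/-- C1: an open subgroup acts trivially on some `V^(p^k) / V^(p^(k+1))`. -/
def StmtC1 : Prop :=
  ∀ (p : ℕ) [Fact p.Prime] (G : Type u) [Group G] [TopologicalSpace G] [IsTopologicalGroup G]
    [CompactSpace G] [T2Space G] [TotallyDisconnectedSpace G], PP p G → FGG G →
    ∀ V : Subgroup G, V.Normal → IsClosed (V : Set G) → (∀ a ∈ V, ∀ b ∈ V, a * b = b * a) →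
    ∀ n : ℕ, FES p V n → ∀ (k : ℕ) (W : Subgroup G), IsOpen (W : Set G) →
    (∀ g ∈ W, ∀ v ∈ V, ∃ u ∈ V, cm g (v ^ p ^ k) = u ^ p ^ (k + 1)) → ∃ e : ℕ, PFG p e ⊥ V

/-- GX: existence of an element which is not small. -/
def StmtGX : Prop :=
  ∀ (p : ℕ) [Fact p.Prime] (G : Type u) [Group G] [TopologicalSpace G] [IsTopologicalGroup G]
    [CompactSpace G] [T2Space G] [TotallyDisconnectedSpace G], PP p G → FGG G → Group.IsSolvable G →
    ∀ V : Subgroup G, V.Normal → IsClosed (V : Set G) → (∀ a ∈ V, ∀ b ∈ V, a * b = b * a) →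
    (∀ (k : ℕ) (W : Subgroup G), IsOpen (W : Set G) →
      ¬ ∀ g ∈ W, ∀ v ∈ V, ∃ u ∈ V, cm g (v ^ p ^ k) = u ^ p ^ (k + 1)) →
    ∃ g : G, ∀ k c : ℕ, ∃ v ∈ V, ∀ u ∈ V, (fun x => cm g x)^[c] (v ^ p ^ k) ≠ u ^ p ^ (k + 1)

/-- AG: the acting group. -/
def StmtAG : Prop :=
  ∀ (p : ℕ) [Fact p.Prime] (G : Type u) [Group G] [TopologicalSpace G] [IsTopologicalGroup G]
    [CompactSpace G] [T2Space G] [TotallyDisconnectedSpace G], PP p G →
    ∀ D : Sec G, D.K = ⊥ → ∀ n : ℕ, FES p D.L n → ∀ g₀ : G,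
    ∃ (d : ℕ) (b : Act p d (CC D)),
      (∀ k, ∃ r, S0 D.L g₀ r ∧ ∀ v, b.σ k v = sg D (r ^ p ^ n) v) ∧
      ∀ r, S0 D.L g₀ r → ∃ k, ∀ v, b.σ k v = sg D (r ^ p ^ n) v

/-- LIN: groups of automorphisms of finitely generated `ℤ_p`-modules. -/
def StmtLin : Prop :=
  ∀ (p : ℕ) [Fact p.Prime] (H : Type u) [Group H] [TopologicalSpace H] [IsTopologicalGroup H]
    [CompactSpace H] [T2Space H] [TotallyDisconnectedSpace H]
    (V : Type u) [AddCommGroup V] [TopologicalSpace V] [IsTopologicalAddGroup V]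
    [CompactSpace V] [T2Space V] (σ : H →* AddMonoid.End V),
    (Continuous fun x : H × V => σ x.1 x.2) →
    (∀ W : Set V, IsOpen W → (0 : V) ∈ W → ∃ U : AddSubgroup V, IsOpen (U : Set V) ∧
      (U : Set V) ⊆ W ∧ ∃ n : ℕ, ∀ b : V, p ^ n • b ∈ U) →
    (∃ F : Finset V, ∀ U : AddSubgroup V, IsClosed (U : Set V) → (F : Set V) ⊆ (U : Set V) →
      U = ⊤) →
    ∀ N : Subgroup H, N.Normal → IsClosed (N : Set H) → (∀ h : H, h ^ p ∈ N) →
    ∃ W : Subgroup H, IsOpen (W : Set H) ∧ ∀ h ∈ W, ∃ a ∈ N, ∀ v, σ (a * h) v = v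

/-- NT: torsion-free nilpotent groups. -/
def StmtNT : Prop :=
  ∀ (p : ℕ) [Fact p.Prime] (H : Type u) [Group H] [TopologicalSpace H] [IsTopologicalGroup H]
    [CompactSpace H] [T2Space H] [TotallyDisconnectedSpace H], PP p H → Group.IsNilpotent H →
    (∀ (g : H) (n : ℕ), 0 < n → g ^ n = 1 → g = 1) →
    ∀ N : Subgroup H, N.Normal → IsClosed (N : Set H) → (∀ h : H, h ^ p ∈ N) →
    (∀ K : Subgroup H, IsClosed (K : Set H) → K ≤ N → FGmod ⊥ K) → FGG H

/-- B6: torsion-free groups with an `FES` series have finite rank. -/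
def StmtB6 : Prop :=
  ∀ (p : ℕ) [Fact p.Prime] (G : Type u) [Group G] [TopologicalSpace G] [IsTopologicalGroup G]
    [CompactSpace G] [T2Space G] [TotallyDisconnectedSpace G], PP p G →
    (∀ (g : G) (n : ℕ), 0 < n → g ^ n = 1 → g = 1) → ∀ n : ℕ, FES p (⊥ : Subgroup G) n → FinRank G

/-- EXT: extension of the series. -/
def StmtExt : Prop :=
  ∀ (p : ℕ) [Fact p.Prime] (G : Type u) [Group G] [TopologicalSpace G] [IsTopologicalGroup G]
    [CompactSpace G] [T2Space G] [TotallyDisconnectedSpace G], PP p G →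
    ∀ V : Subgroup G, V.Normal → IsClosed (V : Set G) → (∀ a ∈ V, ∀ b ∈ V, a * b = b * a) →
    ∀ n : ℕ, FES p V n → (∃ e : ℕ, PFG p e ⊥ V) → ∃ n' : ℕ, FES p (⊥ : Subgroup G) n'

/-- QF: quotients. -/
def StmtQF : Prop :=
  ∀ (p : ℕ) [Fact p.Prime] (G : Type u) [Group G] [TopologicalSpace G] [IsTopologicalGroup G]
    [CompactSpace G] [T2Space G] [TotallyDisconnectedSpace G] (V : Subgroup G) [V.Normal],
    IsClosed (V : Set G) → PP p G → FGG G →
    T2Space (G ⧸ V) ∧ TotallyDisconnectedSpace (G ⧸ V) ∧ PP p (G ⧸ V) ∧ FGG (G ⧸ V) ∧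
      ∀ n : ℕ, FES p (⊥ : Subgroup (G ⧸ V)) n → FES p V n

/-- VV: the definable abelian normal subgroup. -/
def StmtVV : Prop :=
  ∀ (G : Type u) [Group G] [TopologicalSpace G] [IsTopologicalGroup G] [T2Space G] (l : ℕ),
    derivedSeries G (l + 1) = ⊥ →
    ∃ V : Subgroup G, V.Normal ∧ IsClosed (V : Set G) ∧ (∀ a ∈ V, ∀ b ∈ V, a * b = b * a) ∧
      D1 0 (fun _ : ℕ → G => (· ∈ V)) ∧ derivedSeries G l ≤ V

end Pool.Agent.Helper30.Full
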