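import Pool.Agent.Helper30.Full.Conf

/-!
# Statements of the building blocks: minimal configurations
-/

set_option autoImplicit false

namespace Pool.Agent.Helper30.Full

universe u

/-- BAIRE: an ascending chain of closed subgroups with union the whole group is stationary. -/
def StmtBaire : Prop :=
  ∀ (Y : Type u) [AddCommGroup Y] [TopologicalSpace Y] [IsTopologicalAddGroup Y] [CompactSpace Y]
    [T2Space Y] (A : ℕ → AddSubgroup Y), Monotone A → (∀ n, IsClosed (A n : Set Y)) →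
    (∀ y, ∃ n, y ∈ A n) → ∃ n, ∀ y, y ∈ A n

/-- ME: minimal configurations killed by `p` -/
def StmtME : Prop :=
  ∀ (p : ℕ) [Fact p.Prime] (d : ℕ) (M : Type u) [AddCommGroup M] [TopologicalSpace M]
    [IsTopologicalAddGroup M] [CompactSpace M] [T2Space M] (b : Act p d M) (c₀ : VC b),
    (∃ c : VC b, Reach c₀ c ∧ (∀ x ∈ c.X1, p • x ∈ c.X2) ∧ ∃ g ∈ c.S, cUnb c g) →
    ∃ c : VC b, Reach c₀ c ∧ HypEs c

/-- MW: minimal configurations with an element which is not small, if there are no configurations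
of the first kind -/
def StmtMW : Prop :=
  ∀ (p : ℕ) [Fact p.Prime] (d : ℕ) (M : Type u) [AddCommGroup M] [TopologicalSpace M]
    [IsTopologicalAddGroup M] [CompactSpace M] [T2Space M] (b : Act p d M) (c₀ : VC b),
    (∀ c : VC b, Reach c₀ c → (∀ x ∈ c.X1, p • x ∈ c.X2) → ∀ g ∈ c.S, ¬ cUnb c g) →
    (∃ g ∈ c₀.S, ¬ cSmall c₀ g) → ∃ c : VC b, Reach c₀ c ∧ HypWs c

/-- TR: transition to faithful modules -/
def StmtTR : Prop :=
  ∀ (p : ℕ) [Fact p.Prime],
    (∀ (d : ℕ) (X : Type u) [AddCommGroup X] [TopologicalSpace X] [IsTopologicalAddGroup X]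
      [CompactSpace X] [T2Space X] (b : Act p d X), HypE b → Eng b) →
    (∀ (d : ℕ) (X : Type u) [AddCommGroup X] [TopologicalSpace X] [IsTopologicalAddGroup X]
      [CompactSpace X] [T2Space X] (b : Act p d X), HypW b → Eng b) →
    ∀ (d : ℕ) (M : Type u) [AddCommGroup M] [TopologicalSpace M]
      [IsTopologicalAddGroup M] [CompactSpace M] [T2Space M] (b : Act p d M) (c : VC b),
      HypEs c ∨ HypWs c → ∃ t : ℕ, 1 ≤ t ∧ EngC c.cf (fun _ => True) (fun _ => True) t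

/-- WF: there are no infinite descending sequences of times. -/
def StmtWF : Prop :=
  ∀ (p : ℕ) [Fact p.Prime] (d : ℕ) (M : Type u) [AddCommGroup M] [TopologicalSpace M]
    [IsTopologicalAddGroup M] [CompactSpace M] [T2Space M] (b : Act p d M) (c : VC b) (t : ℕ),
    1 ≤ t → ¬ ∃ h : ℕ → (Fin d → ℤ_[p]), ∀ i, ¬ cSm1 c.cf (h i) ∧ cBf c.cf t (h (i + 1)) (h i)

theorem exists_eng (hE : StmtME.{u}) (hW : StmtMW.{u}) (hT : StmtTR.{u})
    (p : ℕ) [Fact p.Prime]
    (h1 : ∀ (d : ℕ) (X : Type u) [AddCommGroup X] [TopologicalSpace X] [IsTopologicalAddGroup X]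
      [CompactSpace X] [T2Space X] (b : Act p d X), HypE b → Eng b)
    (h2 : ∀ (d : ℕ) (X : Type u) [AddCommGroup X] [TopologicalSpace X] [IsTopologicalAddGroup X]
      [CompactSpace X] [T2Space X] (b : Act p d X), HypW b → Eng b)
    (d : ℕ) (M : Type u) [AddCommGroup M] [TopologicalSpace M]
    [IsTopologicalAddGroup M] [CompactSpace M] [T2Space M] (b : Act p d M) (c₀ : VC b)
    (hg : ∃ g ∈ c₀.S, ¬ cSmall c₀ g) :
    ∃ c : VC b, Reach c₀ c ∧ ∃ t : ℕ, 1 ≤ t ∧ EngC c.cf (fun _ => True) (fun _ => True) t := by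
  by_cases h : ∃ c : VC b, Reach c₀ c ∧ (∀ x ∈ c.X1, p • x ∈ c.X2) ∧ ∃ g ∈ c.S, cUnb c g
  · obtain ⟨c, hc, hc'⟩ := hE p d M b c₀ h
    exact ⟨c, hc, hT p h1 h2 d M b c (Or.inl hc')⟩
  · push Not at h
    obtain ⟨c, hc, hc'⟩ := hW p d M b c₀ (fun c h1 h2 g hg => h c h1 h2 g hg) hg
    exact ⟨c, hc, hT p h1 h2 d M b c (Or.inr hc')⟩

end Pool.Agent.Helper30.Full
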