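import Pool.Agent.Helper30.Full.Quot

/-!
# Statements of the building blocks: modules with an element which is not small
-/

set_option autoImplicit false

namespace Pool.Agent.Helper30.Full

universe u

/-- the first basis vector -/
noncomputable def e0 (p : ℕ) [Fact p.Prime] (d : ℕ) : Fin d → ℤ_[p] := fun i => if (i : ℕ) = 0 then 1 else 0

section

variable {p : ℕ} [Fact p.Prime] {d : ℕ} {X : Type u} [AddCommGroup X] [TopologicalSpace X]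

/-- some coordinate of `u` with index in `[r, s)` is a unit -/
def Unit' (r s : ℕ) (u : Fin d → ℤ_[p]) : Prop :=
  ∃ i : Fin d, r ≤ (i : ℕ) ∧ (i : ℕ) < s ∧ ¬ (p : ℤ_[p]) ∣ u i

/-- W1: the exponents of `X / Ψ_n(g) X` tend to infinity. -/
def ExpW (b : Act p d X) (g : Fin d → ℤ_[p]) : Prop :=
  ∀ E : ℕ, ∃ n₀ : ℕ, ∀ n ≥ n₀, ∃ x : X, ∀ y : X, p ^ E • x ≠ Psi b g n y

/-- W2: uniform domination -/
def DomW (b : Act p d X) (s m : ℕ) : Prop :=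
  ∀ u : Fin d → ℤ_[p], Unit' 0 s u → ∀ k x, ∃ y, b.T (p ^ m • k) x = b.T u y

/-- W3: cyclotomic modules. -/
structure CycW (b : Act p d X) (g : Fin d → ℤ_[p]) (n : ℕ) : Prop where
  /-- `p Y = T_g^N Y`, `N = p^n (p-1)` -/
  p1 : ∀ Y : AddSubgroup X, (∀ k, ∀ y ∈ Y, b.σ k y ∈ Y) → ∀ y ∈ Y,
    ∃ z ∈ Y, p • y = (b.T g ^ (p ^ n * (p - 1))) z
  p2 : ∀ Y : AddSubgroup X, (∀ k, ∀ y ∈ Y, b.σ k y ∈ Y) → ∀ y ∈ Y,
    ∃ z ∈ Y, (b.T g ^ (p ^ n * (p - 1))) y = p • z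
  /-- `T_(p^j g) Y = T_g^(p^j) Y` for `j ≤ n` -/
  q1 : ∀ j ≤ n, ∀ Y : AddSubgroup X, (∀ k, ∀ y ∈ Y, b.σ k y ∈ Y) → ∀ y ∈ Y,
    ∃ z ∈ Y, b.T (p ^ j • g) y = (b.T g ^ p ^ j) z
  q2 : ∀ j ≤ n, ∀ Y : AddSubgroup X, (∀ k, ∀ y ∈ Y, b.σ k y ∈ Y) → ∀ y ∈ Y,
    ∃ z ∈ Y, (b.T g ^ p ^ j) y = b.T (p ^ j • g) z
  /-- products -/
  r1 : ∀ (w : Fin d → ℤ_[p]) (K : ℕ), (∀ z : ℕ, ∀ x, ∃ y, (b.T g ^ K) x = b.T (w - z • g) y) →
    ∀ x, ∃ y, (b.T g ^ (K * p ^ (n + 1))) x = b.T (p ^ (n + 1) • w) y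
  r2 : ∀ (w : Fin d → ℤ_[p]) (K j : ℕ), 1 ≤ j →
    (∀ z : ℕ, ¬ p ∣ z → ∀ x, ∃ y, (b.T g ^ K) x = b.T (p ^ j • w - z • g) y) →
    ∀ x, ∃ y, (b.T g ^ (K * (p ^ n * (p - 1)))) x = Psi b w (n + j) y
  r3 : ∀ (u : Fin d → ℤ_[p]) (K j : ℕ), j ≤ n →
    (∀ z : ℕ, ∀ x, ∃ y, (b.T g ^ K) x = b.T (u - (p ^ (n + 1 - j) * z) • g) y) →
    ∀ x, ∃ y, (b.T g ^ (K * p ^ j)) x = b.T (p ^ j • u) y

/-- W4: the estimates on `X / Ψ_n(g) X`, `g` the first basis vector. -/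
structure EstW (b : Act p d X) (s m : ℕ) : Prop where
  /-- `p` and `T_g^N` -/
  p1 : ∀ n x, ∃ y z, p • x = (b.T (e0 p d) ^ (p ^ n * (p - 1))) y + Psi b (e0 p d) n z
  p2 : ∀ n x, ∃ y z, (b.T (e0 p d) ^ (p ^ n * (p - 1))) x = p • y + Psi b (e0 p d) n z
  /-- lower bound for all elements which are not small, at small levels -/
  low : ∀ n j, j + m ≤ n → ∀ u : Fin d → ℤ_[p], Unit' 0 s u → ∀ x, ∃ y z,
    (b.T (e0 p d) ^ p ^ (m + j)) x = b.T (p ^ j • u) y + Psi b (e0 p d) n z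
  /-- upper bound -/
  up : ∀ n l, m + 1 ≤ n → n + m + 2 ≤ l → ∀ k x, ∃ y z,
    b.T (p ^ l • k) x = p ^ (l - n - m) • y + Psi b (e0 p d) n z
  /-- lower bound at high levels -/
  lo : ∀ n l, m + 1 ≤ n → n + m + 2 ≤ l → ∀ w : Fin d → ℤ_[p], Unit' 1 s w → ∀ x, ∃ y z,
    p ^ (l - n - m - 2 + (2 * p ^ m + p ^ m * (m + 1))) • x =
      b.T (p ^ l • w) y + Psi b (e0 p d) n z

/-- small elements: `T_(p^l h) X = p^l T_h X` -/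
def SqW (b : Act p d X) (h : Fin d → ℤ_[p]) : Prop :=
  ∀ l x, (∃ y, b.T (p ^ l • h) x = p ^ l • b.T h y) ∧ ∃ y, p ^ l • b.T h x = b.T (p ^ l • h) y

/-- lower bound for small elements -/
def PadW (b : Act p d X) (s C n₀ : ℕ) : Prop :=
  ∀ n ≥ n₀, ∀ h : Fin d → ℤ_[p], (∀ i : Fin d, (i : ℕ) < s → h i = 0) →
    (∃ i : Fin d, ¬ (p : ℤ_[p]) ∣ h i) → ∀ x, ∃ y z,
      p ^ C • x = b.T h y + Psi b (e0 p d) n z

/-- W5: the elements `k` with `T_k X ⊆ T_(p^B g) X` -/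
def QW (b : Act p d X) (s : ℕ) : Prop :=
  ∀ ρ : ℕ, ∃ B₀ : ℕ, ∀ B ≥ B₀, ∀ k, (∀ x, ∃ y, b.T k x = b.T (p ^ B • e0 p d) y) →
    (∀ i : Fin d, 1 ≤ (i : ℕ) → (i : ℕ) < s → (p : ℤ_[p]) ^ (B + ρ) ∣ k i) ∧
    ∀ i : Fin d, s ≤ (i : ℕ) → (p : ℤ_[p]) ^ ρ ∣ k i

/-- W6: the parameter `l` -/
def LW (b : Act p d X) (s : ℕ) : Prop :=
  ∀ w : ℕ, ∃ ρ B₀ : ℕ, ∀ B ≥ B₀, ∃ l : Fin d → ℤ_[p], ∀ β, B ≤ β → β ≤ B + w →
    (∃ x, ∀ y z, p ^ (w + 4) • x ≠ b.T l y + Psi b (e0 p d) β z) ∧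
    ∀ r : Fin d → ℤ_[p], (∀ i : Fin d, (i : ℕ) = 0 → r i = 0) →
      (∀ i : Fin d, 1 ≤ (i : ℕ) → (i : ℕ) < s → (p : ℤ_[p]) ^ (B + ρ) ∣ r i) →
      (∀ i : Fin d, s ≤ (i : ℕ) → (p : ℤ_[p]) ^ ρ ∣ r i) →
      ∀ x, ∃ y z, b.T r x = b.T l y + Psi b (e0 p d) β z

end

/-- W0: change of coordinates -/
def StmtW0 : Prop :=
  ∀ (p : ℕ) [Fact p.Prime] (d : ℕ) (X : Type u) [AddCommGroup X] [TopologicalSpace X]
    [IsTopologicalAddGroup X] [CompactSpace X] [T2Space X],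
    (∀ (b' : Act p d X) (s : ℕ), HypW2 b' s → Eng b') → ∀ b : Act p d X, HypW b → Eng b

/-- W1 -/
def StmtW1 : Prop :=
  ∀ (p : ℕ) [Fact p.Prime] (d : ℕ) (X : Type u) [AddCommGroup X] [TopologicalSpace X]
    [IsTopologicalAddGroup X] [CompactSpace X] [T2Space X] (b : Act p d X) (g : Fin d → ℤ_[p]),
    ¬ Small b g →
    (∀ i : ℕ, ∃ n : ℕ, ∀ x, (∃ y, (b.T g ^ (n + 1)) (p ^ i • x) = p ^ (i + 1) • y) →
      ∃ y, (b.T g ^ n) (p ^ i • x) = p ^ (i + 1) • y) → ExpW b g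

/-- W2 -/
def StmtW2 : Prop :=
  ∀ (p : ℕ) [Fact p.Prime] (d : ℕ) (X : Type u) [AddCommGroup X] [TopologicalSpace X]
    [IsTopologicalAddGroup X] [CompactSpace X] [T2Space X] (b : Act p d X) (s : ℕ), HypW2 b s →
    ∃ m : ℕ, DomW b s m

/-- W3 -/
def StmtW3 : Prop :=
  ∀ (p : ℕ) [Fact p.Prime] (d : ℕ) (X : Type u) [AddCommGroup X] [TopologicalSpace X]
    [IsTopologicalAddGroup X] [CompactSpace X] [T2Space X] (b : Act p d X) (g : Fin d → ℤ_[p])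
    (n : ℕ), (∀ x, Psi b g n x = 0) → CycW b g n

/-- W4 -/
def StmtW4 : Prop :=
  ∀ (p : ℕ) [Fact p.Prime] (d : ℕ) (X : Type u) [AddCommGroup X] [TopologicalSpace X]
    [IsTopologicalAddGroup X] [CompactSpace X] [T2Space X] (b : Act p d X) (s m : ℕ),
    0 < s → s ≤ d → DomW b s m → EstW b s m

/-- W4a -/
def StmtSq : Prop :=
  ∀ (p : ℕ) [Fact p.Prime] (d : ℕ) (X : Type u) [AddCommGroup X] [TopologicalSpace X]
    [IsTopologicalAddGroup X] [CompactSpace X] [T2Space X] (b : Act p d X) (h : Fin d → ℤ_[p]),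
    (∀ x, ∃ y, b.T h x = p ^ 2 • y) → SqW b h

/-- W4b -/
def StmtPad : Prop :=
  ∀ (p : ℕ) [Fact p.Prime] (d : ℕ) (X : Type u) [AddCommGroup X] [TopologicalSpace X]
    [IsTopologicalAddGroup X] [CompactSpace X] [T2Space X] (b : Act p d X) (s : ℕ), HypW2 b s →
    ∃ C n₀ : ℕ, PadW b s C n₀

/-- W5 -/
def StmtW5 : Prop :=
  ∀ (p : ℕ) [Fact p.Prime] (d : ℕ) (X : Type u) [AddCommGroup X] [TopologicalSpace X]
    [IsTopologicalAddGroup X] [CompactSpace X] [T2Space X] (b : Act p d X) (s : ℕ), HypW2 b s →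
    ExpW b (e0 p d) → ∀ m, EstW b s m → ∀ C n₀, PadW b s C n₀ → (∀ h, Small b h → SqW b h) →
    QW b s

/-- W6 -/
def StmtW6 : Prop :=
  ∀ (p : ℕ) [Fact p.Prime] (d : ℕ) (X : Type u) [AddCommGroup X] [TopologicalSpace X]
    [IsTopologicalAddGroup X] [CompactSpace X] [T2Space X] (b : Act p d X) (s : ℕ), HypW2 b s →
    ExpW b (e0 p d) → ∀ m, EstW b s m → ∀ C n₀, PadW b s C n₀ → (∀ h, Small b h → SqW b h) →
    LW b s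

/-- W7 -/
def StmtW7 : Prop :=
  ∀ (p : ℕ) [Fact p.Prime] (d : ℕ) (X : Type u) [AddCommGroup X] [TopologicalSpace X]
    [IsTopologicalAddGroup X] [CompactSpace X] [T2Space X] (b : Act p d X) (s : ℕ), HypW2 b s →
    ∀ m, DomW b s m → QW b s → LW b s → Eng b

lemma e0_zero {p : ℕ} [Fact p.Prime] {d : ℕ} {i : Fin d} (hi : (i : ℕ) = 0) : e0 p d i = 1 := by
  unfold e0; rw [if_pos hi]

theorem engW (h0 : StmtW0.{u}) (h1 : StmtW1.{u}) (h2 : StmtW2.{u}) (h4 : StmtW4.{u})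
    (hSq : StmtSq.{u}) (hPad : StmtPad.{u}) (h5 : StmtW5.{u}) (h6 : StmtW6.{u}) (h7 : StmtW7.{u})
    (p : ℕ) [Fact p.Prime] (d : ℕ) (X : Type u) [AddCommGroup X] [TopologicalSpace X]
    [IsTopologicalAddGroup X] [CompactSpace X] [T2Space X] (b : Act p d X) (hb : HypW b) :
    Eng b := by
  refine h0 p d X (fun b' s H => ?_) b hb
  obtain ⟨m, hm⟩ := h2 p d X b' s H
  obtain ⟨C, n₀, hC⟩ := hPad p d X b' s H
  have hg : ¬ Small b' (e0 p d) := by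
    rw [H.small]
    intro h
    have h3 := h ⟨0, lt_of_lt_of_le H.s_pos H.s_le⟩ H.s_pos
    rw [e0_zero rfl] at h3
    exact one_ne_zero h3
  have hE := h1 p d X b' (e0 p d) hg (fun i => H.bdd _ i)
  have hEst := h4 p d X b' s m H.s_pos H.s_le hm
  have hS : ∀ h, Small b' h → SqW b' h := fun h hh => hSq p d X b' h (H.sm2 h hh)
  exact h7 p d X b' s H m hm (h5 p d X b' s H hE m hEst C n₀ hC hS)
    (h6 p d X b' s H hE m hEst C n₀ hC hS)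

end Pool.Agent.Helper30.Full
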