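import Pool.Agent.Helper30.Full.GoalsE
import Pool.Agent.Helper30.Full.GoalsW
import Pool.Agent.Helper30.Full.GoalsM
import Pool.Agent.Helper30.Full.GoalsG

/-!
# Assembly
-/

set_option autoImplicit false
set_option linter.unusedSectionVars false

namespace Pool.Agent.Helper30.Full

open Pool.Agent.Helper85.ProP Pool.Agent.Helper30.ProP Pool.Agent.Helper85.ProC

universe u v u' v'

/-! ### programs respect matchings -/

/-- matching programs -/
def PMatch {C : Car.{u, v}} {C' : Car.{u', v'}} (RA : C.A → C'.A → Prop) (RX : C.X → C'.X → Prop)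
    (l : List (Op × C.A × C.X)) (l' : List (Op × C'.A × C'.X)) : Prop :=
  List.Forall₂ (fun o o' => o.1 = o'.1 ∧ RA o.2.1 o'.2.1 ∧ RX o.2.2 o'.2.2) l l'

theorem match_run {C : Car.{u, v}} {C' : Car.{u', v'}} {RA : C.A → C'.A → Prop}
    {RX : C.X → C'.X → Prop} (H : CMatch C C' RA RX) {l : List (Op × C.A × C.X)}
    {l' : List (Op × C'.A × C'.X)} (h : PMatch RA RX l l') {c : Cf C} {c' : Cf C'}
    (K : CfMatch RA RX c c') : CfMatch RA RX (run l c) (run l' c') := by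
  induction h generalizing c c' with
  | nil => exact K
  | cons h _ ih =>
    obtain ⟨h1, h2, h3⟩ := h
    show CfMatch RA RX (run _ (Op.ap _ _ _ c)) (run _ (Op.ap _ _ _ c'))
    rw [h1]
    exact ih (match_ap H K _ h2 h3)

/-! ### the group acting on a normal subgroup -/

section Base

variable {p : ℕ} [Fact p.Prime] {G : Type u} [Group G] [TopologicalSpace G] [IsTopologicalGroup G]
  [CompactSpace G] [T2Space G] [TotallyDisconnectedSpace G] (D : Sec G) {d : ℕ}
  (b : Act p d (CC D))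

/-- `g` acts like `k` -/
def RA (g : G) (k : Fin d → ℤ_[p]) : Prop := ∀ v, sg D g v = b.σ k v

/-- `x` represents `m` -/
def RX (x : G) (m : CC D) : Prop := x ∈ D.L ∧ pr D x = m

lemma pr_inv {x : G} (hx : x ∈ D.L) : pr D x⁻¹ = -pr D x := by
  have h := (model D).mul x hx x⁻¹ (D.L.inv_mem hx)
  have h1 : pr D (1 : G) = 0 := ((model D).zero 1 D.L.one_mem).2 D.K.one_mem
  rw [mul_inv_cancel, h1] at h
  exact (neg_eq_of_add_eq_zero_right h.symm).symm

lemma pr_pow {x : G} (hx : x ∈ D.L) (n : ℕ) : pr D (x ^ n) = n • pr D x := by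
  induction n with
  | zero =>
    rw [pow_zero, zero_smul]
    exact ((model D).zero 1 D.L.one_mem).2 D.K.one_mem
  | succ n ih => rw [pow_succ, (model D).mul _ (D.L.pow_mem hx n) _ hx, ih, succ_nsmul]

lemma cm_mem_L (g : G) {x : G} (hx : x ∈ D.L) : cm g x ∈ D.L := by
  have : cm g x = g * x * g⁻¹ * x⁻¹ := rfl
  rw [this]
  exact D.L.mul_mem ((model D).conj1 g x hx) (D.L.inv_mem hx)

lemma pr_cm (g : G) {x : G} (hx : x ∈ D.L) : pr D (cm g x) = sg D g (pr D x) - pr D x := by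
  have : cm g x = g * x * g⁻¹ * x⁻¹ := rfl
  rw [this, (model D).mul _ ((model D).conj1 g x hx) _ (D.L.inv_mem hx), (model D).act g x hx,
    pr_inv D hx, sub_eq_add_neg]

theorem cmatch : CMatch (carG p G) (carM b) (RA D b) (RX D) where
  act g k x m hg hx := by
    refine ⟨(model D).conj1 g x hx.1, ?_⟩
    show pr D (g * x * g⁻¹) = b.σ k m
    rw [(model D).act g x hx.1, hx.2, hg]
  T g k x m hg hx := by
    refine ⟨cm_mem_L D g hx.1, ?_⟩
    show pr D (cm g x) = b.T k m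
    rw [pr_cm D g hx.1, hx.2, hg]; rfl
  sub x m y m' hx hy := by
    refine ⟨D.L.mul_mem hx.1 (D.L.inv_mem hy.1), ?_⟩
    show pr D (x * y⁻¹) = m - m'
    rw [(model D).mul _ hx.1 _ (D.L.inv_mem hy.1), pr_inv D hy.1, hx.2, hy.2, sub_eq_add_neg]
  pX x m hx := by
    refine ⟨D.L.pow_mem hx.1 p, ?_⟩
    show pr D (x ^ p) = p • m
    rw [pr_pow D hx.1, hx.2]
  pA g k hg := by
    intro v
    show sg D (g ^ p) v = b.σ (p • k) v
    have h1 : ∀ n : ℕ, (sg D g ^ n) v = (b.σ k ^ n) v := by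
      intro n
      induction n with
      | zero => rfl
      | succ n ih =>
        have e1 : (sg D g ^ (n + 1)) v = sg D g ((sg D g ^ n) v) := by rw [pow_succ']; rfl
        have e2 : (b.σ k ^ (n + 1)) v = b.σ k ((b.σ k ^ n) v) := by rw [pow_succ']; rfl
        rw [e1, e2, ih, hg]
    rw [map_pow, h1, ← σ_nsmul]

/-- the full configuration -/
noncomputable def topC : VC b where
  S := ⊤
  X1 := ⊤
  X2 := ⊥
  le := bot_le
  c1 := isClosed_univ
  c2 := by rw [AddSubgroup.coe_bot]; exact isClosed_singleton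
  i1 := fun _ _ _ => trivial
  i2 := fun k x hx => by
    rw [AddSubgroup.mem_bot] at hx ⊢
    rw [hx, map_zero]

variable (hK : D.K = ⊥) {n : ℕ} {g₀ : G}
  (h1 : ∀ k, ∃ r, S0 D.L g₀ r ∧ ∀ v, b.σ k v = sg D (r ^ p ^ n) v)
  (h2 : ∀ r, S0 D.L g₀ r → ∃ k, ∀ v, b.σ k v = sg D (r ^ p ^ n) v)

include hK h1 h2

theorem cfmatch : CfMatch (RA D b) (RX D) (baseG p n D.L g₀) (topC D b).cf where
  S1 := by
    rintro _ ⟨r, hr, rfl⟩
    obtain ⟨k, hk⟩ := h2 r hr
    exact ⟨k, fun v => (hk v).symm, trivial⟩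
  S2 := by
    intro k _
    obtain ⟨r, hr, hr'⟩ := h1 k
    exact ⟨r ^ p ^ n, fun v => (hr' v).symm, r, hr, rfl⟩
  X1a := fun x hx => ⟨pr D x, hx, rfl⟩
  X1b := fun m _ => by
    obtain ⟨x, hx, rfl⟩ := (model D).surj m
    exact ⟨x, hx, rfl⟩
  X1 := fun x m hx => ⟨fun _ => trivial, fun _ => hx.1⟩
  X2 := fun x m hx => by
    show x = 1 ↔ m ∈ (⊥ : AddSubgroup (CC D))
    rw [AddSubgroup.mem_bot, ← hx.2, (model D).zero x hx.1, hK, Subgroup.mem_bot]

/-- admissible programs have partners -/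
lemma exists_partner (l : List (Op × G × G)) (hl : Adm p n D.L g₀ l) :
    ∃ l' : List (Op × (Fin d → ℤ_[p]) × CC D), PMatch (C := carG p G) (C' := carM b) (RA D b)
      (RX D) l l' := by
  induction l with
  | nil => exact ⟨[], List.Forall₂.nil⟩
  | cons o l ih =>
    obtain ⟨l', hl'⟩ := ih (fun o ho => hl o (List.mem_cons_of_mem _ ho))
    obtain ⟨⟨r, hr, hr'⟩, ho2⟩ := hl o List.mem_cons_self
    obtain ⟨k, hk⟩ := h2 r hr
    refine ⟨(o.1, k, pr D o.2.2) :: l', List.Forall₂.cons ⟨rfl, ?_, ho2, rfl⟩ hl'⟩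
    intro v
    rw [hr', hk]

lemma exists_partner' (l' : List (Op × (Fin d → ℤ_[p]) × CC D)) :
    ∃ l : List (Op × G × G), Adm p n D.L g₀ l ∧
      PMatch (C := carG p G) (C' := carM b) (RA D b) (RX D) l l' := by
  induction l' with
  | nil => exact ⟨[], fun o ho => absurd ho List.not_mem_nil, List.Forall₂.nil⟩
  | cons o l' ih =>
    obtain ⟨l, hl, hl'⟩ := ih
    obtain ⟨r, hr, hr'⟩ := h1 o.2.1
    obtain ⟨x, hx, hx'⟩ := (model D).surj o.2.2
    refine ⟨(o.1, r ^ p ^ n, x) :: l, ?_, List.Forall₂.cons ⟨rfl, fun v => (hr' v).symm, hx, hx'⟩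
      hl'⟩
    intro o' ho'
    rcases List.mem_cons.1 ho' with rfl | ho'
    · exact ⟨⟨r, hr, rfl⟩, hx⟩
    · exact hl o' ho'

/-- no infinite descending sequences of times in the group -/
theorem wf_G (hWF : StmtWF.{u}) {t : ℕ} (ht : 1 ≤ t) (l : List (Op × G × G))
    (hl : Adm p n D.L g₀ l) :
    ¬ ∃ h : ℕ → G, ∀ i, (run (C := carG p G) l (baseG p n D.L g₀)).S (h i) ∧
      ¬ cSm1 (run (C := carG p G) l (baseG p n D.L g₀)) (h i) ∧
      cBf (run (C := carG p G) l (baseG p n D.L g₀)) t (h (i + 1)) (h i) := by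
  rintro ⟨h, hh⟩
  obtain ⟨l', hl'⟩ := exists_partner D b hK h1 h2 l hl
  have hM := match_run (cmatch D b) hl' (cfmatch D b hK h1 h2)
  have hS := fun i => hM.S1 (h i) (hh i).1
  choose h' hh' _ using hS
  refine hWF p d (CC D) b (VC.run l' (topC D b)) t ht ⟨h', fun i => ?_⟩
  rw [VC.cf_run]
  rw [← match_Sm1 (cmatch D b) hM (hh' i), ← match_Bf (cmatch D b) hM (hh' (i + 1)) (hh' i)]
  exact (hh i).2

/-- the interface in the group -/
theorem eng_G {c : VC b} (hc : Reach (topC D b) c) {t : ℕ}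
    (hE : EngC c.cf (fun _ => True) (fun _ => True) t) :
    ∃ l : List (Op × G × G), Adm p n D.L g₀ l ∧
      EngC (run (C := carG p G) l (baseG p n D.L g₀)) (baseG p n D.L g₀).S (· ∈ D.L) t := by
  obtain ⟨l', hl'⟩ := hc
  obtain ⟨l, hl, hll⟩ := exists_partner' D b hK h1 h2 l'
  refine ⟨l, hl, ?_⟩
  have hM := match_run (cmatch D b) hll (cfmatch D b hK h1 h2)
  rw [hl'] at hE
  refine match_Eng (cmatch D b) hM (fun k _ => ?_) (fun m _ => ?_) hE
  · obtain ⟨r, hr, hr'⟩ := h1 k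
    exact ⟨r ^ p ^ n, fun v => (hr' v).symm, r, hr, rfl⟩
  · obtain ⟨x, hx, hx'⟩ := (model D).surj m
    exact ⟨x, ⟨hx, hx'⟩, hx⟩

end Base

section Small

variable {V : Type*} [AddCommGroup V]

lemma pow_sub_one_pow (p : ℕ) [Fact p.Prime] (S : AddMonoid.End V) (n m : ℕ) :
    ∃ R : AddMonoid.End V, (S ^ p ^ n - 1) ^ m = (S - 1) ^ (p ^ n * m) + (p : AddMonoid.End V) * R := by
  have hp := (Fact.out : p.Prime)
  have h1 := (Commute.one_right (S - 1)).add_pow_prime_pow_eq hp n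
  rw [sub_add_cancel, one_pow] at h1
  obtain ⟨R0, hR0⟩ : ∃ R0 : AddMonoid.End V, S ^ p ^ n - 1 =
      (S - 1) ^ p ^ n + (p : AddMonoid.End V) * R0 := by
    refine ⟨(S - 1) * 1 * ∑ k ∈ Finset.Ioo 0 (p ^ n), (S - 1) ^ (k - 1) * 1 ^ (p ^ n - k - 1) *
      (((p ^ n).choose k / p : ℕ) : AddMonoid.End V), ?_⟩
    rw [h1, mul_assoc, mul_assoc, mul_assoc]; abel
  have hc : ∀ A : AddMonoid.End V, A * (p : AddMonoid.End V) = (p : AddMonoid.End V) * A :=
    fun A => (Nat.cast_commute p A).eq.symm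
  induction m with
  | zero => exact ⟨0, by simp⟩
  | succ m ih =>
    obtain ⟨R, hR⟩ := ih
    refine ⟨(S - 1) ^ (p ^ n * m) * R0 + R * (S - 1) ^ p ^ n + (p : AddMonoid.End V) * R * R0, ?_⟩
    rw [pow_succ, hR, hR0, mul_add (p ^ n), mul_one, pow_add]
    rw [mul_add, add_mul, add_mul, mul_add, mul_add]
    have e1 : (S - 1) ^ (p ^ n * m) * ((p : AddMonoid.End V) * R0) =
        (p : AddMonoid.End V) * ((S - 1) ^ (p ^ n * m) * R0) := by
      rw [← mul_assoc, hc, mul_assoc]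
    have e2 : (p : AddMonoid.End V) * R * ((p : AddMonoid.End V) * R0) =
        (p : AddMonoid.End V) * ((p : AddMonoid.End V) * R * R0) := by
      rw [mul_assoc, ← mul_assoc R, hc R, mul_assoc]
    rw [e1, e2, mul_assoc (p : AddMonoid.End V) R]
    abel

end Small

/-- The engine: an abelian normal subgroup which is not finitely generated up to `p`-powers leads
to undecidability. -/
theorem engine_thm (hC1 : StmtC1.{u}) (hGX : StmtGX.{u}) (hAG : StmtAG.{u}) (hWF : StmtWF.{u})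
    (hUnd : StmtUnd.{u}) (hME : StmtME.{u}) (hMW : StmtMW.{u}) (hTR : StmtTR.{u})
    (p : ℕ) [Fact p.Prime]
    (e1 : ∀ (d : ℕ) (X : Type u) [AddCommGroup X] [TopologicalSpace X] [IsTopologicalAddGroup X]
      [CompactSpace X] [T2Space X] (b : Act p d X), HypE b → Eng b)
    (e2 : ∀ (d : ℕ) (X : Type u) [AddCommGroup X] [TopologicalSpace X] [IsTopologicalAddGroup X]
      [CompactSpace X] [T2Space X] (b : Act p d X), HypW b → Eng b)
    (G : Type u) [Group G] [TopologicalSpace G] [IsTopologicalGroup G] [CompactSpace G] [T2Space G]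
    [TotallyDisconnectedSpace G] (hPP : PP p G) (hfg : FGG G) (hsol : Group.IsSolvable G)
    (V : Subgroup G) (hVn : V.Normal) (hVc : IsClosed (V : Set G))
    (hVab : ∀ a ∈ V, ∀ b ∈ V, a * b = b * a) (hVd : D1 0 (fun _ : ℕ → G => (· ∈ V)))
    (n : ℕ) (hF : FES p V n) (hP : ¬ ∃ e : ℕ, PFG p e ⊥ V) : ¬ DecTh G := by
  obtain ⟨g, hg⟩ := hGX p G hPP hfg hsol V hVn hVc hVab (fun k W hW h =>
    hP (hC1 p G hPP hfg V hVn hVc hVab n hF k W hW h))
  -- the section
  let D : Sec G :=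
    { K := ⊥
      L := V
      Kn := inferInstance
      Kc := by rw [Subgroup.coe_bot]; exact isClosed_singleton
      Ln := hVn
      Lc := hVc
      KL := bot_le
      ab := fun a ha b hb => by
        rw [Subgroup.mem_bot]
        show a * b * a⁻¹ * b⁻¹ = 1
        rw [hVab a ha b hb]; group }
  have hK : D.K = ⊥ := rfl
  have hL : D.L = V := rfl
  have hself : S0 V g g := by
    refine ⟨?_, fun t ht => ?_⟩
    · have : cm g g = 1 := by unfold cm; group
      rw [this]; exact Subgroup.one_mem _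
    · have : cm g t = (cm t g)⁻¹ := by unfold cm; group
      rw [this]; exact Subgroup.inv_mem _ ht
  obtain ⟨d, b, h1, h2⟩ := hAG p G hPP D hK n hF g
  obtain ⟨k₀, hk₀⟩ := h2 g hself
  -- the corresponding element is not small
  have hbig : ¬ cSmall (topC D b) k₀ := by
    rintro ⟨i, m, hm⟩
    obtain ⟨v, hv, hv'⟩ := hg i (p ^ n * m)
    obtain ⟨R, hR⟩ := pow_sub_one_pow p (sg D g) n m
    have eT : b.T k₀ = sg D g ^ p ^ n - 1 := by
      ext x
      show b.σ k₀ x - x = (sg D g ^ p ^ n) x - x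
      rw [hk₀, map_pow]
    obtain ⟨y, -, hy⟩ := hm (pr D v) trivial
    have hy' : (b.T k₀ ^ m) (p ^ i • pr D v) - p ^ (i + 1) • y = 0 := hy
    rw [sub_eq_zero, eT, hR] at hy'
    have e3 : ((p : AddMonoid.End (CC D)) * R) (p ^ i • pr D v) = p ^ (i + 1) • R (pr D v) := by
      show (p : AddMonoid.End (CC D)) (R (p ^ i • pr D v)) = _
      rw [map_nsmul]
      have : ∀ z : CC D, (p : AddMonoid.End (CC D)) z = p • z := fun z => by
        rw [← nsmul_one]; rfl
      rw [this, pow_succ', mul_smul]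
    have e4 : ((sg D g - 1) ^ (p ^ n * m)) (p ^ i • pr D v) = p ^ (i + 1) • (y - R (pr D v)) := by
      have e5 : ((sg D g - 1) ^ (p ^ n * m)) (p ^ i • pr D v) +
        ((p : AddMonoid.End (CC D)) * R) (p ^ i • pr D v) = p ^ (i + 1) • y := hy'
      rw [smul_sub, ← e5, e3]; abel
    -- iterated commutators
    have e6 : ∀ (c : ℕ) (x : G), x ∈ V → (fun z => cm g z)^[c] x ∈ V ∧
        pr D ((fun z => cm g z)^[c] x) = ((sg D g - 1) ^ c) (pr D x) := by
      intro c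
      induction c with
      | zero => intro x hx; exact ⟨hx, rfl⟩
      | succ c ih =>
        intro x hx
        obtain ⟨i1, i2⟩ := ih x hx
        rw [Function.iterate_succ_apply']
        refine ⟨cm_mem_L D g i1, ?_⟩
        rw [pr_cm D g i1, i2, pow_succ']
        rfl
    obtain ⟨u, hu, hu'⟩ := (model D).surj (y - R (pr D v))
    apply hv' u hu
    obtain ⟨j1, j2⟩ := e6 (p ^ n * m) (v ^ p ^ i) (V.pow_mem hv _)
    rw [pr_pow D hv, e4, ← hu', ← pr_pow D hu] at j2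
    have j3 : pr D ((fun z => cm g z)^[p ^ n * m] (v ^ p ^ i) * (u ^ p ^ (i + 1))⁻¹) = 0 := by
      rw [(model D).mul _ j1 _ (V.inv_mem (V.pow_mem hu _)), pr_inv D (V.pow_mem hu _), j2,
        add_neg_cancel]
    rw [(model D).zero _ (V.mul_mem j1 (V.inv_mem (V.pow_mem hu _))), hK, Subgroup.mem_bot,
      mul_inv_eq_one] at j3
    exact j3
  obtain ⟨c, hc, t, ht, hE⟩ := exists_eng hME hMW hTR p e1 e2 d (CC D) b (topC D b)
    ⟨k₀, trivial, hbig⟩
  obtain ⟨l, hl, hE'⟩ := eng_G D b hK h1 h2 hc hE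
  refine hUnd p G V hVd n t (fun g₀ l hl => ?_) ⟨g, l, hl, hE'⟩
  obtain ⟨d', b', h1', h2'⟩ := hAG p G hPP D hK n hF g₀
  exact wf_G D b' hK h1' h2' hWF ht l hl

/-- f.g. soluble pro-p groups with decidable theory have an `FES` series -/
theorem star (hC1 : StmtC1.{u}) (hGX : StmtGX.{u}) (hAG : StmtAG.{u}) (hWF : StmtWF.{u})
    (hUnd : StmtUnd.{u}) (hME : StmtME.{u}) (hMW : StmtMW.{u}) (hTR : StmtTR.{u})
    (hQD : StmtQD.{u}) (hExt : StmtExt.{u}) (hQF : StmtQF.{u}) (hVV : StmtVV.{u})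
    (p : ℕ) [Fact p.Prime]
    (e1 : ∀ (d : ℕ) (X : Type u) [AddCommGroup X] [TopologicalSpace X] [IsTopologicalAddGroup X]
      [CompactSpace X] [T2Space X] (b : Act p d X), HypE b → Eng b)
    (e2 : ∀ (d : ℕ) (X : Type u) [AddCommGroup X] [TopologicalSpace X] [IsTopologicalAddGroup X]
      [CompactSpace X] [T2Space X] (b : Act p d X), HypW b → Eng b)
    (l : ℕ) : ∀ (G : Type u) [Group G] [TopologicalSpace G] [IsTopologicalGroup G] [CompactSpace G]
    [T2Space G] [TotallyDisconnectedSpace G], PP p G → FGG G → derivedSeries G l = ⊥ → DecTh G →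
    ∃ n : ℕ, FES p (⊥ : Subgroup G) n := by
  induction l with
  | zero =>
    intro G _ _ _ _ _ _ _ _ hd _
    rw [derivedSeries_zero] at hd
    exact ⟨0, fun _ => ⊥, rfl, hd.symm, fun _ => ⟨inferInstance, by
      rw [Subgroup.coe_bot]; exact isClosed_singleton⟩, fun i hi => absurd hi (Nat.not_lt_zero i)⟩
  | succ l ih =>
    intro G _ _ _ _ _ _ hPP hfg hd hdec
    obtain ⟨V, hVn, hVc, hVab, hVd, hVl⟩ := hVV G l hd
    obtain ⟨q1, q2, q3, q4, q5⟩ := hQF p G V hVc hPP hfg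
    have hd' : derivedSeries (G ⧸ V) l = ⊥ := by
      have := map_derivedSeries_eq (f := QuotientGroup.mk' V) (QuotientGroup.mk'_surjective V) l
      rw [← this, Subgroup.map_eq_bot_iff, QuotientGroup.ker_mk']
      exact hVl
    obtain ⟨n, hn⟩ := ih (G ⧸ V) q3 q4 hd' (hQD G V hVd hdec)
    have hn' := q5 n hn
    by_cases hP : ∃ e : ℕ, PFG p e ⊥ V
    · exact hExt p G hPP V hVn hVc hVab n hn' hP
    · exact absurd hdec (engine_thm hC1 hGX hAG hWF hUnd hME hMW hTR p e1 e2 G hPP hfg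
        ⟨⟨l + 1, hd⟩⟩ V hVn hVc hVab hVd n hn' hP)

/-- The theorem, from the packets. -/
theorem main (hE1 : StmtE1.{u}) (hE2 : StmtE2.{u}) (hE3 : StmtE3.{u})
    (hW0 : StmtW0.{u}) (hW1 : StmtW1.{u}) (hW2 : StmtW2.{u}) (hW4 : StmtW4.{u})
    (hSq : StmtSq.{u}) (hPad : StmtPad.{u}) (hW5 : StmtW5.{u}) (hW6 : StmtW6.{u})
    (hW7 : StmtW7.{u})
    (hC1 : StmtC1.{u}) (hGX : StmtGX.{u}) (hAG : StmtAG.{u}) (hWF : StmtWF.{u})
    (hUnd : StmtUnd.{u}) (hME : StmtME.{u}) (hMW : StmtMW.{u}) (hTR : StmtTR.{u})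
    (hQD : StmtQD.{u}) (hExt : StmtExt.{u}) (hQF : StmtQF.{u}) (hVV : StmtVV.{u})
    (hB6 : StmtB6.{u})
    (p : ℕ) [Fact p.Prime] (G : Type u) [Group G] [TopologicalSpace G] [IsTopologicalGroup G]
    [CompactSpace G] [T2Space G] [TotallyDisconnectedSpace G] (hPP : PP p G) (hfg : FGG G)
    (htf : ∀ (g : G) (n : ℕ), 0 < n → g ^ n = 1 → g = 1) (hsol : Group.IsSolvable G)
    (hdec : DecTh G) : FinRank G := by
  obtain ⟨l, hl⟩ := hsol.solvable
  obtain ⟨n, hn⟩ := star hC1 hGX hAG hWF hUnd hME hMW hTR hQD hExt hQF hVV p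
    (fun d X _ _ _ _ _ b hb => engE hE1 hE2 hE3 p d X b hb)
    (fun d X _ _ _ _ _ b hb => engW hW0 hW1 hW2 hW4 hSq hPad hW5 hW6 hW7 p d X b hb) l G hPP hfg
    hl hdec
  exact hB6 p G hPP htf n hn

end Pool.Agent.Helper30.Full
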