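import Pool.Agent.Helper30.Full.Defs

/-!
# Actions of `ℤ_p^d` on compact abelian pro-`p` groups: basic facts
-/

set_option autoImplicit false
set_option linter.unusedSectionVars false

namespace Pool.Agent.Helper30.Full

universe u

noncomputable section

open Polynomial

section alg

variable {p : ℕ} [Fact p.Prime] {d : ℕ} {X : Type u} [AddCommGroup X] [TopologicalSpace X]
  (b : Act p d X)

lemma T_apply (k : Fin d → ℤ_[p]) (x : X) : b.T k x = b.σ k x - x := rfl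

lemma σ_eq (k : Fin d → ℤ_[p]) : b.σ k = b.T k + 1 := by
  unfold Act.T; rw [sub_add_cancel]

lemma σ_apply (k : Fin d → ℤ_[p]) (x : X) : b.σ k x = b.T k x + x := by
  rw [T_apply, sub_add_cancel]

lemma σ_comm (k l : Fin d → ℤ_[p]) : Commute (b.σ k) (b.σ l) := by
  unfold Commute SemiconjBy
  rw [← b.add, ← b.add, add_comm]

lemma σ_comm_apply (k l : Fin d → ℤ_[p]) (x : X) : b.σ k (b.σ l x) = b.σ l (b.σ k x) :=
  congrArg (fun f : AddMonoid.End X => f x) (σ_comm b k l)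

lemma T_comm_σ (k l : Fin d → ℤ_[p]) : Commute (b.T k) (b.σ l) := by
  unfold Act.T
  exact (σ_comm b k l).sub_left (Commute.one_left _)

lemma T_comm (k l : Fin d → ℤ_[p]) : Commute (b.T k) (b.T l) := by
  unfold Act.T
  exact ((σ_comm b k l).sub_left (Commute.one_left _)).sub_right
    ((Commute.one_right _))

lemma T_comm_apply (k l : Fin d → ℤ_[p]) (x : X) : b.T k (b.T l x) = b.T l (b.T k x) :=
  congrArg (fun f : AddMonoid.End X => f x) (T_comm b k l)

lemma T_comm_σ_apply (k l : Fin d → ℤ_[p]) (x : X) : b.T k (b.σ l x) = b.σ l (b.T k x) :=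
  congrArg (fun f : AddMonoid.End X => f x) (T_comm_σ b k l)

lemma T_zero : b.T 0 = 0 := by
  unfold Act.T; rw [b.zero, sub_self]

lemma T_add (k l : Fin d → ℤ_[p]) : b.T (k + l) = b.T k + b.σ k * b.T l := by
  unfold Act.T; rw [b.add, mul_sub, mul_one]; abel

lemma T_add_apply (k l : Fin d → ℤ_[p]) (x : X) :
    b.T (k + l) x = b.T k x + b.σ k (b.T l x) :=
  congrArg (fun f : AddMonoid.End X => f x) (T_add b k l)

lemma σ_neg_apply (k : Fin d → ℤ_[p]) (x : X) : b.σ (-k) (b.σ k x) = x := by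
  have h : b.σ (-k) * b.σ k = 1 := by rw [← b.add, neg_add_cancel, b.zero]
  exact congrArg (fun f : AddMonoid.End X => f x) h

lemma σ_neg_apply' (k : Fin d → ℤ_[p]) (x : X) : b.σ k (b.σ (-k) x) = x := by
  rw [σ_comm_apply, σ_neg_apply]

lemma T_neg_apply (k : Fin d → ℤ_[p]) (x : X) : b.T (-k) x = -b.σ (-k) (b.T k x) := by
  rw [T_apply, T_apply, map_sub, σ_neg_apply]; abel

lemma σ_nsmul (n : ℕ) (k : Fin d → ℤ_[p]) : b.σ (n • k) = b.σ k ^ n := by
  induction n with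
  | zero => rw [zero_smul, b.zero, pow_zero]
  | succ n ih => rw [succ_nsmul, b.add, ih, pow_succ]

lemma σ_pow_apply (n : ℕ) (k : Fin d → ℤ_[p]) (x : X) : b.σ (n • k) x = (b.σ k ^ n) x := by
  rw [σ_nsmul]

/-- `T_{q k} = T_k^q + p T_k P(T_k)` for `q = p^j` -/
lemma T_ppow (j : ℕ) (k : Fin d → ℤ_[p]) : ∃ P : ℤ[X],
    b.T (p ^ j • k) = b.T k ^ p ^ j + p • (b.T k * aeval (b.T k) P) := by
  have hp := (Fact.out : p.Prime)
  have h1 := (Commute.one_right (b.T k)).add_pow_prime_pow_eq hp j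
  refine ⟨∑ i ∈ Finset.Ioo 0 (p ^ j), C (((p ^ j).choose i / p : ℕ) : ℤ) * Polynomial.X ^ (i - 1), ?_⟩
  have h2 : b.T (p ^ j • k) = (b.T k + 1) ^ p ^ j - 1 := by
    rw [← σ_eq, ← σ_nsmul]; rfl
  have h4 : ∀ i ∈ Finset.Ioo 0 (p ^ j), b.T k ^ (i - 1) * 1 ^ (p ^ j - i - 1) *
      (((p ^ j).choose i / p : ℕ) : AddMonoid.End X) =
      aeval (b.T k) (C (((p ^ j).choose i / p : ℕ) : ℤ) * Polynomial.X ^ (i - 1)) := by
    intro i _
    rw [one_pow, mul_one, map_mul, aeval_C, map_pow, aeval_X, algebraMap_int_eq,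
      eq_intCast, Int.cast_natCast, (Nat.cast_commute _ _).eq]
  rw [h2, h1, one_pow, Finset.sum_congr rfl h4, map_sum, nsmul_eq_mul, mul_one, mul_assoc]
  abel

lemma T_smul_mem (Y : AddSubgroup X) (hY : ∀ k, ∀ y ∈ Y, b.σ k y ∈ Y) (k : Fin d → ℤ_[p]) (y : X)
    (hy : y ∈ Y) : b.T k y ∈ Y := Y.sub_mem (hY k y hy) hy

lemma Tpow_mem (Y : AddSubgroup X) (k : Fin d → ℤ_[p]) (hY : ∀ y ∈ Y, b.T k y ∈ Y) (n : ℕ) (y : X)
    (hy : y ∈ Y) : (b.T k ^ n) y ∈ Y := by
  induction n with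
  | zero => simpa using hy
  | succ n ih => rw [pow_succ']; exact hY _ ih

lemma aeval_mem (Y : AddSubgroup X) (k : Fin d → ℤ_[p]) (hY : ∀ y ∈ Y, b.T k y ∈ Y) (P : ℤ[X]) (y : X)
    (hy : y ∈ Y) : (aeval (b.T k) P) y ∈ Y := by
  rw [aeval_eq_sum_range]
  have h1 : (∑ i ∈ Finset.range (P.natDegree + 1), P.coeff i • b.T k ^ i : AddMonoid.End X) y =
      ∑ i ∈ Finset.range (P.natDegree + 1), (P.coeff i • b.T k ^ i : AddMonoid.End X) y :=
    AddMonoidHom.finsetSum_apply _ _ _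
  rw [h1]
  exact Y.sum_mem fun i _ => Y.zsmul_mem (Tpow_mem b Y k hY i y hy) _

end alg

section top

variable {p : ℕ} [Fact p.Prime] {d : ℕ} {X : Type u} [AddCommGroup X] [TopologicalSpace X]
  (b : Act p d X)

lemma cont_σ (k : Fin d → ℤ_[p]) : Continuous fun x : X => b.σ k x := by
  have h1 : Continuous fun x : X => ((k, x) : (Fin d → ℤ_[p]) × X) := Continuous.prodMk_right k
  exact b.cont.comp h1

lemma cont_left (x : X) : Continuous fun k : Fin d → ℤ_[p] => b.σ k x := by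
  have h1 : Continuous fun k : Fin d → ℤ_[p] => ((k, x) : (Fin d → ℤ_[p]) × X) :=
    Continuous.prodMk_left x
  exact b.cont.comp h1

variable [IsTopologicalAddGroup X]

lemma cont_T (k : Fin d → ℤ_[p]) : Continuous fun x : X => b.T k x :=
  (cont_σ b k).sub continuous_id

lemma cont_T_left (x : X) : Continuous fun k : Fin d → ℤ_[p] => b.T k x :=
  (cont_left b x).sub continuous_const

lemma cont_Tpow (k : Fin d → ℤ_[p]) (n : ℕ) : Continuous fun x : X => (b.T k ^ n) x := by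
  induction n with
  | zero => exact continuous_id
  | succ n ih =>
    have : (fun x : X => (b.T k ^ (n + 1)) x) = fun x => b.T k ((b.T k ^ n) x) := by
      funext x; rw [pow_succ']; rfl
    rw [this]
    exact (cont_T b k).comp ih

/-- the set of all `k` with `T_k Z ⊆ Y` is a submodule -/
def subm (Z : Set X) (Y : AddSubgroup X) (hY : IsClosed (Y : Set X))
    (inv : ∀ k, ∀ y ∈ Y, b.σ k y ∈ Y) : Submodule ℤ_[p] (Fin d → ℤ_[p]) where
  carrier := {k | ∀ z ∈ Z, b.T k z ∈ Y}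
  zero_mem' := fun z _ => by rw [T_zero]; exact Y.zero_mem
  add_mem' := fun {k l} hk hl z hz => by
    rw [T_add_apply]; exact Y.add_mem (hk z hz) (inv _ _ (hl z hz))
  smul_mem' := fun α k hk z hz => by
    have h1 : IsClosed {β : ℤ_[p] | b.T (β • k) z ∈ Y} :=
      hY.preimage ((cont_T_left b z).comp (by fun_prop))
    have h2 : Set.range ((↑) : ℕ → ℤ_[p]) ⊆ {β : ℤ_[p] | b.T (β • k) z ∈ Y} := by
      rintro _ ⟨n, rfl⟩
      show b.T ((n : ℤ_[p]) • k) z ∈ Y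
      rw [Nat.cast_smul_eq_nsmul]
      induction n with
      | zero => rw [zero_smul, T_zero]; exact Y.zero_mem
      | succ n ih => rw [succ_nsmul, T_add_apply]; exact Y.add_mem ih (inv _ _ (hk z hz))
    have h3 := h1.closure_subset_iff.2 h2
    exact h3 (PadicInt.denseRange_natCast α)

lemma mem_subm {Z : Set X} {Y : AddSubgroup X} {hY : IsClosed (Y : Set X)}
    {inv : ∀ k, ∀ y ∈ Y, b.σ k y ∈ Y} {k : Fin d → ℤ_[p]} :
    k ∈ subm b Z Y hY inv ↔ ∀ z ∈ Z, b.T k z ∈ Y := Iff.rfl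

variable [CompactSpace X]

/-- sufficiently small elements act trivially modulo an open subgroup -/
lemma exists_triv (U : AddSubgroup X) (hU : IsOpen (U : Set X)) (k : Fin d → ℤ_[p]) :
    ∃ j : ℕ, ∀ x, b.T (p ^ j • k) x ∈ U := by
  have h1 : IsOpen {z : (Fin d → ℤ_[p]) × X | b.T z.1 z.2 ∈ U} :=
    hU.preimage (b.cont.sub continuous_snd)
  obtain ⟨u, v, hu, hv, hu0, hv0, huv⟩ := generalized_tube_lemma
    (isCompact_singleton (x := (0 : Fin d → ℤ_[p]))) (isCompact_univ (X := X)) h1 (by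
      rintro ⟨l, x⟩ ⟨hl, -⟩
      have hl' : l = 0 := hl
      show b.T l x ∈ U
      rw [hl', T_zero]; exact U.zero_mem)
  have h2 : Filter.Tendsto (fun j : ℕ => (p ^ j : ℕ) • k) Filter.atTop (nhds 0) := by
    rw [tendsto_pi_nhds]
    intro i
    have h3 : Filter.Tendsto (fun j : ℕ => (p : ℤ_[p]) ^ j * k i) Filter.atTop (nhds (0 * k i)) := by
      refine Filter.Tendsto.mul_const _ ?_
      refine tendsto_pow_atTop_nhds_zero_of_norm_lt_one ?_
      rw [PadicInt.norm_p]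
      exact inv_lt_one_of_one_lt₀ (by exact_mod_cast (Fact.out : p.Prime).one_lt)
    rw [zero_mul] at h3
    refine h3.congr fun j => ?_
    simp
  have h3 : ∀ᶠ j in Filter.atTop, (p ^ j : ℕ) • k ∈ u :=
    h2 (hu.mem_nhds (hu0 rfl))
  obtain ⟨j, hj⟩ := h3.exists
  exact ⟨j, fun x => huv (Set.mk_mem_prod hj (hv0 trivial))⟩

/-- `T_k` is topologically nilpotent -/
lemma exists_nilp (U : AddSubgroup X) (hU : IsOpen (U : Set X)) (inv : ∀ k, ∀ y ∈ U, b.σ k y ∈ U)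
    (k : Fin d → ℤ_[p]) : ∃ N : ℕ, ∀ n ≥ N, ∀ x, (b.T k ^ n) x ∈ U := by
  obtain ⟨U', hU', hUU, _, n, hn⟩ := b.basis U hU U.zero_mem
  obtain ⟨j, hj⟩ := exists_triv b U hU k
  obtain ⟨P, hP⟩ := T_ppow b j k
  have hT : ∀ y ∈ U, b.T k y ∈ U := T_smul_mem b U inv k
  have key : ∀ i : ℕ, ∀ x, ∃ u ∈ U, ∃ y, (b.T k ^ (p ^ j * i)) x = u + p ^ i • y := by
    intro i
    induction i with
    | zero =>
      intro x
      exact ⟨0, U.zero_mem, x, by simp⟩
    | succ i ih =>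
      intro x
      obtain ⟨u, hu, y, hy⟩ := ih x
      refine ⟨(b.T k ^ p ^ j) u + p ^ i • b.T (p ^ j • k) y, U.add_mem (Tpow_mem b U k hT _ _ hu)
        (U.nsmul_mem (hj y) _), -(b.T k * aeval (b.T k) P) y, ?_⟩
      have h1 : (b.T k ^ (p ^ j * (i + 1))) x = (b.T k ^ p ^ j) ((b.T k ^ (p ^ j * i)) x) := by
        rw [mul_add, mul_one, add_comm, pow_add]; rfl
      have h2 : b.T (p ^ j • k) y = (b.T k ^ p ^ j) y + p • (b.T k * aeval (b.T k) P) y := by
        rw [hP]; rfl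
      rw [h1, hy, map_add, map_nsmul, h2, smul_add, smul_neg, pow_succ, mul_smul]
      abel
  refine ⟨p ^ j * n, fun m hm x => ?_⟩
  obtain ⟨u, hu, y, hy⟩ := key n x
  have h1 : (b.T k ^ m) x = (b.T k ^ (m - p ^ j * n)) ((b.T k ^ (p ^ j * n)) x) := by
    conv_lhs => rw [← Nat.sub_add_cancel hm, pow_add]
    rfl
  rw [h1, hy]
  exact Tpow_mem b U k hT _ _ (U.add_mem hu (hUU (hn y)))

variable [T2Space X]

/-- a closed set is the intersection of its open neighbourhoods `Z + U` -/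
lemma mem_closed (Z : AddSubgroup X) (hZ : IsClosed (Z : Set X)) (y : X)
    (h : ∀ U : AddSubgroup X, IsOpen (U : Set X) → (∀ k, ∀ x ∈ U, b.σ k x ∈ U) →
      (∃ n : ℕ, ∀ x : X, p ^ n • x ∈ U) → ∃ z ∈ Z, y - z ∈ U) : y ∈ Z := by
  by_contra hy
  have h1 : IsOpen ((fun x : X => y - x) ⁻¹' ((Z : Set X)ᶜ)) :=
    hZ.isOpen_compl.preimage (by fun_prop)
  obtain ⟨U, hU, hUW, hinv, hn⟩ := b.basis _ h1 (by
    show y - 0 ∉ (Z : Set X)
    rw [sub_zero]; exact hy)
  obtain ⟨z, hz, hz'⟩ := h U hU hinv hn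
  apply hUW hz'
  show y - (y - z) ∈ Z
  rw [sub_sub_cancel]; exact hz

/-- Nakayama's lemma for `T_k` and `p` -/
theorem nakayama (k : Fin d → ℤ_[p]) (Y Z : AddSubgroup X) (hZ : IsClosed (Z : Set X))
    (hZk : ∀ z ∈ Z, b.T k z ∈ Z)
    (h : ∀ y ∈ Y, ∃ z ∈ Z, ∃ y₁ ∈ Y, ∃ y₂ ∈ Y, y = z + b.T k y₁ + p • y₂) : Y ≤ Z := by
  intro y hy
  refine mem_closed b Z hZ y fun U hU inv ⟨n, hn⟩ => ?_
  obtain ⟨N, hN⟩ := exists_nilp b U hU inv k
  have hT : ∀ y ∈ U, b.T k y ∈ U := T_smul_mem b U inv k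
  have key : ∀ j : ℕ, ∀ y ∈ Y, ∃ z ∈ Z, ∃ u ∈ U, ∃ x, y = z + u + p ^ j • x := by
    intro j
    induction j with
    | zero =>
      intro y _
      exact ⟨0, Z.zero_mem, 0, U.zero_mem, y, by simp⟩
    | succ j ihj =>
      have key2 : ∀ i : ℕ, ∀ y ∈ Y, ∃ z ∈ Z, ∃ u ∈ U, ∃ x x',
          y = z + u + p ^ j • (b.T k ^ i) x + p ^ (j + 1) • x' := by
        intro i
        induction i with
        | zero =>
          intro y hy
          obtain ⟨z, hz, u, hu, x, hx⟩ := ihj y hy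
          exact ⟨z, hz, u, hu, x, 0, by rw [hx]; simp⟩
        | succ i ihi =>
          intro y hy
          obtain ⟨z, hz, y₁, hy₁, y₂, hy₂, e⟩ := h y hy
          obtain ⟨z1, hz1, u1, hu1, x1, x1', e1⟩ := ihi y₁ hy₁
          obtain ⟨z2, hz2, u2, hu2, x2, e2⟩ := ihj y₂ hy₂
          refine ⟨z + b.T k z1 + p • z2, Z.add_mem (Z.add_mem hz (hZk _ hz1)) (Z.nsmul_mem hz2 _),
            b.T k u1 + p • u2, U.add_mem (hT _ hu1) (U.nsmul_mem hu2 _), x1, b.T k x1' + x2, ?_⟩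
          have e3 : (b.T k ^ (i + 1)) x1 = b.T k ((b.T k ^ i) x1) := by rw [pow_succ']; rfl
          rw [e, e1, e2, map_add, map_add, map_add, map_nsmul, map_nsmul, e3, smul_add, smul_add,
            smul_add, pow_succ', mul_smul, mul_smul]
          abel
      intro y hy
      obtain ⟨z, hz, u, hu, x, x', e⟩ := key2 N y hy
      exact ⟨z, hz, u + p ^ j • (b.T k ^ N) x, U.add_mem hu (U.nsmul_mem (hN N le_rfl x) _), x', by
        rw [e]; abel⟩
  obtain ⟨z, hz, u, hu, x, e⟩ := key n y hy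
  refine ⟨z, hz, ?_⟩
  have : y - z = u + p ^ n • x := by rw [e]; abel
  rw [this]
  exact U.add_mem hu (hn x)

/-- the image of `T_k` is closed -/
lemma closed_rangeT (k : Fin d → ℤ_[p]) : IsClosed ((AddMonoidHom.range (b.T k)) : Set X) := by
  have h1 : ((AddMonoidHom.range (b.T k)) : Set X) = Set.range fun x : X => b.T k x := by
    ext x; rfl
  rw [h1]
  exact (isCompact_range (cont_T b k)).isClosed

end top

end

end Pool.Agent.Helper30.Full
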