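import Pool.Agent.Helper30.Full.Quot

/-!
# Carriers, configurations, programs

A carrier consists of a type `A` of acting elements, a type `X` of vectors and operations; the
examples are `ℤ_p^d` acting on a module, and a group acting on a normal subgroup by conjugation.
A configuration on a carrier is a triple of predicates `S`, `X1`, `X2` (a set of acting elements and
a section `X1 / X2`). All formulas are defined for arbitrary carriers.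
-/

set_option autoImplicit false
set_option linter.unusedSectionVars false
set_option linter.checkUnivs false

namespace Pool.Agent.Helper30.Full

universe u v u' v'

/-- a carrier -/
structure Car where
  A : Type u
  X : Type v
  /-- the action -/
  act : A → X → X
  /-- `T k x = k x - x` -/
  T : A → X → X
  /-- difference -/
  sub : X → X → X
  /-- multiplication by `p` on vectors -/
  pX : X → X
  /-- multiplication by `p` on acting elements -/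
  pA : A → A

/-- a configuration -/
structure Cf (C : Car.{u, v}) where
  S : C.A → Prop
  X1 : C.X → Prop
  X2 : C.X → Prop

/-- the operations -/
inductive Op : Type
  | stab | quo | ker | pm | sect | pow

section

variable {C : Car.{u, v}}

/-- application of an operation with the parameters `u` and `x` -/
def Op.ap : Op → C.A → C.X → Cf C → Cf C
  | .stab, u, x, c => { c with
      S := fun k => c.S k ∧ ∃ y, c.X1 y ∧ c.X2 (C.sub (C.T k x) (C.T u y)) }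
  | .quo, u, _, c => { c with X2 := fun z => ∃ y, c.X1 y ∧ c.X2 (C.sub z (C.T u y)) }
  | .ker, u, _, c => { c with X1 := fun z => c.X1 z ∧ c.X2 (C.T u z) }
  | .pm, _, _, c => { c with X1 := fun z => c.X1 z ∧ ∃ y, c.X1 y ∧ c.X2 (C.sub z (C.pX y)) }
  | .sect, _, _, c => { c with X2 := fun z => ∃ y, c.X1 y ∧ c.X2 (C.sub z (C.pX y)) }
  | .pow, _, _, c => { c with S := fun k => ∃ h, c.S h ∧ k = C.pA h }

/-- execution of a program -/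
def run : List (Op × C.A × C.X) → Cf C → Cf C
  | [], c => c
  | o :: l, c => run l (o.1.ap o.2.1 o.2.2 c)

/-! ### the formulas -/

/-- `T_k X ⊆ T_u X` -/
def cLe0 (c : Cf C) (u k : C.A) : Prop :=
  ∀ x, c.X1 x → ∃ y, c.X1 y ∧ c.X2 (C.sub (C.T k x) (C.T u y))

/-- `T_k X ⊆ T_u X + p X` -/
def cLe1 (c : Cf C) (u k : C.A) : Prop :=
  ∀ x, c.X1 x → ∃ y, c.X1 y ∧ ∃ z, c.X1 z ∧ c.X2 (C.sub (C.sub (C.T k x) (C.T u y)) (C.pX z))

/-- `T_k X ⊆ p X` -/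
def cSm1 (c : Cf C) (k : C.A) : Prop :=
  ∀ x, c.X1 x → ∃ z, c.X1 z ∧ c.X2 (C.sub (C.T k x) (C.pX z))

/-- `x ∈ D_k` -/
def cDD (c : Cf C) (l k : C.A) (x : C.X) : Prop :=
  ∃ x', c.X1 x' ∧ ∃ x'', c.X1 x'' ∧ ∃ z, c.X1 z ∧ c.X2 (C.sub (C.sub x x') (C.T l x'')) ∧
    c.X2 (C.sub (C.T k x') (C.T (C.pA k) z))

/-- the set of times -/
def cII (c : Cf C) (u₀ u₁ l : C.A) (yT : C.X) (k : C.A) : Prop :=
  c.S k ∧ cLe0 c u₀ k ∧ cLe1 c k u₁ ∧ ¬ cSm1 c k ∧ ¬ cDD c l k yT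

/-- `h` is before `k` -/
def cBf (c : Cf C) (t : ℕ) (h k : C.A) : Prop := cLe1 c (C.pA^[t] h) k

/-- the relation coded by `x` -/
def cRR (c : Cf C) (t : ℕ) (u₀ u₁ l : C.A) (yT yV x : C.X) (k h : C.A) : Prop :=
  ∀ k', cII c u₀ u₁ l yT k' → ¬ cBf c t k k' → ¬ cBf c t k' k →
    ∃ h', cII c u₀ u₁ l yT h' ∧ ¬ cBf c t h h' ∧ ¬ cBf c t h' h ∧ cDD c l k' (C.sub x (C.act h' yV))

/-- The interface for a configuration: for every `w` there are parameters such that the times form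
a finite clock `0, …, w`, and arbitrary functions `c` with `c n < n` are coded by vectors; all
parameters satisfy the guards `PA`, `PX`. -/
def EngC (c : Cf C) (PA : C.A → Prop) (PX : C.X → Prop) (t : ℕ) : Prop :=
  ∀ w : ℕ, ∃ (u₀ u₁ l : C.A) (yT yV : C.X) (ν : C.A → ℕ), PA u₀ ∧ PA u₁ ∧ PA l ∧ PX yT ∧ PX yV ∧
    (∀ k, cII c u₀ u₁ l yT k → ν k ≤ w) ∧
    (∀ n ≤ w, ∃ k, cII c u₀ u₁ l yT k ∧ ν k = n) ∧
    (∀ h k, cII c u₀ u₁ l yT h → cII c u₀ u₁ l yT k → (cBf c t h k ↔ ν h < ν k)) ∧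
    ∀ f : ℕ → ℕ, (∀ n, 1 ≤ n → n ≤ w → f n < n) → ∃ x : C.X, PX x ∧ ∀ k h, cII c u₀ u₁ l yT k →
      cII c u₀ u₁ l yT h → 1 ≤ ν k → (cRR c t u₀ u₁ l yT yV x k h ↔ ν h = f (ν k))

end

/-! ### matching of carriers -/

/-- compatible relations between two carriers -/
structure CMatch (C : Car.{u, v}) (C' : Car.{u', v'}) (RA : C.A → C'.A → Prop)
    (RX : C.X → C'.X → Prop) : Prop where
  act : ∀ a a' x x', RA a a' → RX x x' → RX (C.act a x) (C'.act a' x')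
  T : ∀ a a' x x', RA a a' → RX x x' → RX (C.T a x) (C'.T a' x')
  sub : ∀ x x' y y', RX x x' → RX y y' → RX (C.sub x y) (C'.sub x' y')
  pX : ∀ x x', RX x x' → RX (C.pX x) (C'.pX x')
  pA : ∀ a a', RA a a' → RA (C.pA a) (C'.pA a')

/-- matching configurations -/
structure CfMatch {C : Car.{u, v}} {C' : Car.{u', v'}} (RA : C.A → C'.A → Prop) (RX : C.X → C'.X → Prop)
    (c : Cf C) (c' : Cf C') : Prop where
  S1 : ∀ a, c.S a → ∃ a', RA a a' ∧ c'.S a'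
  S2 : ∀ a', c'.S a' → ∃ a, RA a a' ∧ c.S a
  X1a : ∀ x, c.X1 x → ∃ x', RX x x'
  X1b : ∀ x', c'.X1 x' → ∃ x, RX x x'
  X1 : ∀ x x', RX x x' → (c.X1 x ↔ c'.X1 x')
  X2 : ∀ x x', RX x x' → (c.X2 x ↔ c'.X2 x')

section Match

variable {C : Car.{u, v}} {C' : Car.{u', v'}} {RA : C.A → C'.A → Prop} {RX : C.X → C'.X → Prop}
  (H : CMatch C C' RA RX) {c : Cf C} {c' : Cf C'} (K : CfMatch RA RX c c')

include H K

lemma match_Le0 {u k : C.A} {u' k' : C'.A} (hu : RA u u') (hk : RA k k') :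
    cLe0 c u k ↔ cLe0 c' u' k' := by
  constructor
  · intro h x' hx'
    obtain ⟨x, hx⟩ := K.X1b x' hx'
    obtain ⟨y, hy, h2⟩ := h x ((K.X1 _ _ hx).2 hx')
    obtain ⟨y', hyy⟩ := K.X1a y hy
    exact ⟨y', (K.X1 _ _ hyy).1 hy, (K.X2 _ _ (H.sub _ _ _ _ (H.T _ _ _ _ hk hx)
      (H.T _ _ _ _ hu hyy))).1 h2⟩
  · intro h x hx
    obtain ⟨x', hxx⟩ := K.X1a x hx
    obtain ⟨y', hy', h2⟩ := h x' ((K.X1 _ _ hxx).1 hx)
    obtain ⟨y, hyy⟩ := K.X1b y' hy'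
    exact ⟨y, (K.X1 _ _ hyy).2 hy', (K.X2 _ _ (H.sub _ _ _ _ (H.T _ _ _ _ hk hxx)
      (H.T _ _ _ _ hu hyy))).2 h2⟩

lemma match_Le1 {u k : C.A} {u' k' : C'.A} (hu : RA u u') (hk : RA k k') :
    cLe1 c u k ↔ cLe1 c' u' k' := by
  constructor
  · intro h x' hx'
    obtain ⟨x, hx⟩ := K.X1b x' hx'
    obtain ⟨y, hy, z, hz, h2⟩ := h x ((K.X1 _ _ hx).2 hx')
    obtain ⟨y', hyy⟩ := K.X1a y hy
    obtain ⟨z', hzz⟩ := K.X1a z hz
    exact ⟨y', (K.X1 _ _ hyy).1 hy, z', (K.X1 _ _ hzz).1 hz,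
      (K.X2 _ _ (H.sub _ _ _ _ (H.sub _ _ _ _ (H.T _ _ _ _ hk hx)
      (H.T _ _ _ _ hu hyy)) (H.pX _ _ hzz))).1 h2⟩
  · intro h x hx
    obtain ⟨x', hxx⟩ := K.X1a x hx
    obtain ⟨y', hy', z', hz', h2⟩ := h x' ((K.X1 _ _ hxx).1 hx)
    obtain ⟨y, hyy⟩ := K.X1b y' hy'
    obtain ⟨z, hzz⟩ := K.X1b z' hz'
    exact ⟨y, (K.X1 _ _ hyy).2 hy', z, (K.X1 _ _ hzz).2 hz',
      (K.X2 _ _ (H.sub _ _ _ _ (H.sub _ _ _ _ (H.T _ _ _ _ hk hxx)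
      (H.T _ _ _ _ hu hyy)) (H.pX _ _ hzz))).2 h2⟩

lemma match_Sm1 {k : C.A} {k' : C'.A} (hk : RA k k') : cSm1 c k ↔ cSm1 c' k' := by
  constructor
  · intro h x' hx'
    obtain ⟨x, hx⟩ := K.X1b x' hx'
    obtain ⟨y, hy, h2⟩ := h x ((K.X1 _ _ hx).2 hx')
    obtain ⟨y', hyy⟩ := K.X1a y hy
    exact ⟨y', (K.X1 _ _ hyy).1 hy, (K.X2 _ _ (H.sub _ _ _ _ (H.T _ _ _ _ hk hx)
      (H.pX _ _ hyy))).1 h2⟩
  · intro h x hx
    obtain ⟨x', hxx⟩ := K.X1a x hx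
    obtain ⟨y', hy', h2⟩ := h x' ((K.X1 _ _ hxx).1 hx)
    obtain ⟨y, hyy⟩ := K.X1b y' hy'
    exact ⟨y, (K.X1 _ _ hyy).2 hy', (K.X2 _ _ (H.sub _ _ _ _ (H.T _ _ _ _ hk hxx)
      (H.pX _ _ hyy))).2 h2⟩

lemma match_DD {l k : C.A} {l' k' : C'.A} (hl : RA l l') (hk : RA k k') {x : C.X} {x' : C'.X}
    (hx : RX x x') : cDD c l k x ↔ cDD c' l' k' x' := by
  constructor
  · rintro ⟨a, ha, e, he, f, hf, h1, h2⟩
    obtain ⟨a', haa⟩ := K.X1a a ha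
    obtain ⟨e', hee⟩ := K.X1a e he
    obtain ⟨f', hff⟩ := K.X1a f hf
    exact ⟨a', (K.X1 _ _ haa).1 ha, e', (K.X1 _ _ hee).1 he, f', (K.X1 _ _ hff).1 hf,
      (K.X2 _ _ (H.sub _ _ _ _ (H.sub _ _ _ _ hx haa) (H.T _ _ _ _ hl hee))).1 h1,
      (K.X2 _ _ (H.sub _ _ _ _ (H.T _ _ _ _ hk haa) (H.T _ _ _ _ (H.pA _ _ hk) hff))).1 h2⟩
  · rintro ⟨a', ha', e', he', f', hf', h1, h2⟩
    obtain ⟨a, haa⟩ := K.X1b a' ha'
    obtain ⟨e, hee⟩ := K.X1b e' he'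
    obtain ⟨f, hff⟩ := K.X1b f' hf'
    exact ⟨a, (K.X1 _ _ haa).2 ha', e, (K.X1 _ _ hee).2 he', f, (K.X1 _ _ hff).2 hf',
      (K.X2 _ _ (H.sub _ _ _ _ (H.sub _ _ _ _ hx haa) (H.T _ _ _ _ hl hee))).2 h1,
      (K.X2 _ _ (H.sub _ _ _ _ (H.T _ _ _ _ hk haa) (H.T _ _ _ _ (H.pA _ _ hk) hff))).2 h2⟩

omit K in
lemma match_pA {a : C.A} {a' : C'.A} (h : RA a a') (t : ℕ) : RA (C.pA^[t] a) (C'.pA^[t] a') := by
  induction t with
  | zero => exact h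
  | succ t ih =>
    rw [Function.iterate_succ_apply', Function.iterate_succ_apply']
    exact H.pA _ _ ih

lemma match_Bf {h k : C.A} {h' k' : C'.A} (hh : RA h h') (hk : RA k k') (t : ℕ) :
    cBf c t h k ↔ cBf c' t h' k' := match_Le1 H K (match_pA H hh t) hk

lemma match_II {u₀ u₁ l k : C.A} {u₀' u₁' l' k' : C'.A} (h0 : RA u₀ u₀') (h1 : RA u₁ u₁')
    (hl : RA l l') (hk : RA k k') {yT : C.X} {yT' : C'.X} (hy : RX yT yT') (hS : c.S k)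
    (hS' : c'.S k') : cII c u₀ u₁ l yT k ↔ cII c' u₀' u₁' l' yT' k' := by
  unfold cII
  rw [match_Le0 H K h0 hk, match_Le1 H K hk h1, match_Sm1 H K hk, match_DD H K hl hk hy]
  simp only [hS, hS']

lemma match_RR {u₀ u₁ l k h : C.A} {u₀' u₁' l' k' h' : C'.A} (h0 : RA u₀ u₀') (h1 : RA u₁ u₁')
    (hl : RA l l') (hk : RA k k') (hh : RA h h') {yT yV x : C.X} {yT' yV' x' : C'.X}
    (hyT : RX yT yT') (hyV : RX yV yV') (hx : RX x x') (t : ℕ) :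
    cRR c t u₀ u₁ l yT yV x k h ↔ cRR c' t u₀' u₁' l' yT' yV' x' k' h' := by
  constructor
  · intro hR a' ha' e1 e2
    obtain ⟨a, haa, hSa⟩ := K.S2 a' ha'.1
    have hIa := (match_II H K h0 h1 hl haa hyT hSa ha'.1).2 ha'
    rw [← match_Bf H K hk haa] at e1
    rw [← match_Bf H K haa hk] at e2
    obtain ⟨g, hg, e3, e4, e5⟩ := hR a hIa e1 e2
    obtain ⟨g', hgg, hSg⟩ := K.S1 g hg.1
    rw [match_Bf H K hh hgg] at e3
    rw [match_Bf H K hgg hh] at e4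
    exact ⟨g', (match_II H K h0 h1 hl hgg hyT hg.1 hSg).1 hg, e3, e4,
      (match_DD H K hl haa (H.sub _ _ _ _ hx (H.act _ _ _ _ hgg hyV))).1 e5⟩
  · intro hR a ha e1 e2
    obtain ⟨a', haa, hSa⟩ := K.S1 a ha.1
    have hIa := (match_II H K h0 h1 hl haa hyT ha.1 hSa).1 ha
    rw [match_Bf H K hk haa] at e1
    rw [match_Bf H K haa hk] at e2
    obtain ⟨g', hg', e3, e4, e5⟩ := hR a' hIa e1 e2
    obtain ⟨g, hgg, hSg⟩ := K.S2 g' hg'.1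
    rw [← match_Bf H K hh hgg] at e3
    rw [← match_Bf H K hgg hh] at e4
    exact ⟨g, (match_II H K h0 h1 hl hgg hyT hSg hg'.1).2 hg', e3, e4,
      (match_DD H K hl haa (H.sub _ _ _ _ hx (H.act _ _ _ _ hgg hyV))).2 e5⟩

/-- transfer of the interface -/
theorem match_Eng {PA : C.A → Prop} {PX : C.X → Prop} {PA' : C'.A → Prop} {PX' : C'.X → Prop}
    (hPA : ∀ a', PA' a' → ∃ a, RA a a' ∧ PA a) (hPX : ∀ x', PX' x' → ∃ x, RX x x' ∧ PX x)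
    {t : ℕ} (h : EngC c' PA' PX' t) : EngC c PA PX t := by
  classical
  intro w
  obtain ⟨u₀', u₁', l', yT', yV', ν', p0, p1, p2, p3, p4, q1, q2, q3, q4⟩ := h w
  obtain ⟨u₀, r0, s0⟩ := hPA _ p0
  obtain ⟨u₁, r1, s1⟩ := hPA _ p1
  obtain ⟨l, r2, s2⟩ := hPA _ p2
  obtain ⟨yT, r3, s3⟩ := hPX _ p3
  obtain ⟨yV, r4, s4⟩ := hPX _ p4
  -- choose partners
  have hch : ∀ a, c.S a → ∃ a', RA a a' ∧ c'.S a' := K.S1
  have : Nonempty C'.A := ⟨u₀'⟩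
  choose! ch hch1 hch2 using hch
  have hI : ∀ k, cII c u₀ u₁ l yT k → cII c' u₀' u₁' l' yT' (ch k) := fun k hk =>
    (match_II H K r0 r1 r2 (hch1 k hk.1) r3 hk.1 (hch2 k hk.1)).1 hk
  -- two partners have the same value
  have hval : ∀ a a₁' a₂', RA a a₁' → RA a a₂' → cII c' u₀' u₁' l' yT' a₁' →
      cII c' u₀' u₁' l' yT' a₂' → ν' a₁' = ν' a₂' := by
    intro a a₁' a₂' e1 e2 i1 i2
    have h1 : ¬ (ν' a₁' < ν' a₂') := by
      rw [← q3 _ _ i1 i2, ← match_Bf H K e1 e2, match_Bf H K e1 e1, q3 _ _ i1 i1]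
      exact lt_irrefl _
    have h2 : ¬ (ν' a₂' < ν' a₁') := by
      rw [← q3 _ _ i2 i1, ← match_Bf H K e2 e1, match_Bf H K e1 e1, q3 _ _ i1 i1]
      exact lt_irrefl _
    omega
  refine ⟨u₀, u₁, l, yT, yV, fun a => ν' (ch a), s0, s1, s2, s3, s4, fun k hk => q1 _ (hI k hk),
    ?_, ?_, ?_⟩
  · intro n hn
    obtain ⟨k', hk', e⟩ := q2 n hn
    obtain ⟨k, hkk, hSk⟩ := K.S2 k' hk'.1
    have hIk : cII c u₀ u₁ l yT k := (match_II H K r0 r1 r2 hkk r3 hSk hk'.1).2 hk'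
    refine ⟨k, hIk, ?_⟩
    rw [← e]
    exact hval k _ _ (hch1 k hSk) hkk (hI k hIk) hk'
  · intro a k ha hk
    rw [match_Bf H K (hch1 a ha.1) (hch1 k hk.1)]
    exact q3 _ _ (hI a ha) (hI k hk)
  · intro f hf
    obtain ⟨x', hx', e⟩ := q4 f hf
    obtain ⟨x, hx, hPx⟩ := hPX _ hx'
    refine ⟨x, hPx, fun k a hk ha hν => ?_⟩
    rw [match_RR H K r0 r1 r2 (hch1 k hk.1) (hch1 a ha.1) r3 r4 hx]
    exact e _ _ (hI k hk) (hI a ha) hν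

/-- operations respect the matching -/
theorem match_ap (o : Op) {u : C.A} {u' : C'.A} (hu : RA u u') {x : C.X} {x' : C'.X}
    (hx : RX x x') : CfMatch RA RX (o.ap u x c) (o.ap u' x' c') := by
  cases o with
  | stab =>
    have key : ∀ k k', RA k k' → ((∃ y, c.X1 y ∧ c.X2 (C.sub (C.T k x) (C.T u y))) ↔
        ∃ y', c'.X1 y' ∧ c'.X2 (C'.sub (C'.T k' x') (C'.T u' y'))) := by
      intro k k' hk
      constructor
      · rintro ⟨y, hy, h2⟩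
        obtain ⟨y', hyy⟩ := K.X1a y hy
        exact ⟨y', (K.X1 _ _ hyy).1 hy, (K.X2 _ _ (H.sub _ _ _ _ (H.T _ _ _ _ hk hx)
          (H.T _ _ _ _ hu hyy))).1 h2⟩
      · rintro ⟨y', hy', h2⟩
        obtain ⟨y, hyy⟩ := K.X1b y' hy'
        exact ⟨y, (K.X1 _ _ hyy).2 hy', (K.X2 _ _ (H.sub _ _ _ _ (H.T _ _ _ _ hk hx)
          (H.T _ _ _ _ hu hyy))).2 h2⟩
    refine ⟨?_, ?_, K.X1a, K.X1b, K.X1, K.X2⟩
    · rintro a ⟨ha, h2⟩
      obtain ⟨a', haa, ha'⟩ := K.S1 a ha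
      exact ⟨a', haa, ha', (key a a' haa).1 h2⟩
    · rintro a' ⟨ha', h2⟩
      obtain ⟨a, haa, ha⟩ := K.S2 a' ha'
      exact ⟨a, haa, ha, (key a a' haa).2 h2⟩
  | quo =>
    refine ⟨K.S1, K.S2, K.X1a, K.X1b, K.X1, fun z z' hz => ?_⟩
    constructor
    · rintro ⟨y, hy, h2⟩
      obtain ⟨y', hyy⟩ := K.X1a y hy
      exact ⟨y', (K.X1 _ _ hyy).1 hy, (K.X2 _ _ (H.sub _ _ _ _ hz (H.T _ _ _ _ hu hyy))).1 h2⟩
    · rintro ⟨y', hy', h2⟩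
      obtain ⟨y, hyy⟩ := K.X1b y' hy'
      exact ⟨y, (K.X1 _ _ hyy).2 hy', (K.X2 _ _ (H.sub _ _ _ _ hz (H.T _ _ _ _ hu hyy))).2 h2⟩
  | ker =>
    refine ⟨K.S1, K.S2, fun z hz => K.X1a z hz.1, fun z hz => K.X1b z hz.1, fun z z' hz => ?_,
      K.X2⟩
    exact and_congr (K.X1 _ _ hz) (K.X2 _ _ (H.T _ _ _ _ hu hz))
  | pm =>
    refine ⟨K.S1, K.S2, fun z hz => K.X1a z hz.1, fun z hz => K.X1b z hz.1, fun z z' hz => ?_,
      K.X2⟩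
    refine and_congr (K.X1 _ _ hz) ⟨?_, ?_⟩
    · rintro ⟨y, hy, h2⟩
      obtain ⟨y', hyy⟩ := K.X1a y hy
      exact ⟨y', (K.X1 _ _ hyy).1 hy, (K.X2 _ _ (H.sub _ _ _ _ hz (H.pX _ _ hyy))).1 h2⟩
    · rintro ⟨y', hy', h2⟩
      obtain ⟨y, hyy⟩ := K.X1b y' hy'
      exact ⟨y, (K.X1 _ _ hyy).2 hy', (K.X2 _ _ (H.sub _ _ _ _ hz (H.pX _ _ hyy))).2 h2⟩
  | sect =>
    refine ⟨K.S1, K.S2, K.X1a, K.X1b, K.X1, fun z z' hz => ?_⟩
    constructor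
    · rintro ⟨y, hy, h2⟩
      obtain ⟨y', hyy⟩ := K.X1a y hy
      exact ⟨y', (K.X1 _ _ hyy).1 hy, (K.X2 _ _ (H.sub _ _ _ _ hz (H.pX _ _ hyy))).1 h2⟩
    · rintro ⟨y', hy', h2⟩
      obtain ⟨y, hyy⟩ := K.X1b y' hy'
      exact ⟨y, (K.X1 _ _ hyy).2 hy', (K.X2 _ _ (H.sub _ _ _ _ hz (H.pX _ _ hyy))).2 h2⟩
  | pow =>
    refine ⟨?_, ?_, K.X1a, K.X1b, K.X1, K.X2⟩
    · rintro a ⟨h, hh, rfl⟩
      obtain ⟨h', hhh, hh'⟩ := K.S1 h hh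
      exact ⟨C'.pA h', H.pA _ _ hhh, h', hh', rfl⟩
    · rintro a' ⟨h', hh', rfl⟩
      obtain ⟨h, hhh, hh⟩ := K.S2 h' hh'
      exact ⟨C.pA h, H.pA _ _ hhh, h, hh, rfl⟩

end Match

end Pool.Agent.Helper30.Full
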