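import Mathlib

/-!
# Actions of `ℤ_p^d` on compact abelian pro-`p` groups: definitions

`b : Act p d X` is a continuous action of `ℤ_p^d` on the compact abelian pro-`p` group `X`;
`b.T k = k - 1` as an endomorphism of `X`.
-/

set_option autoImplicit false

namespace Pool.Agent.Helper30.Full

universe u

noncomputable section

/-- a continuous action of `ℤ_p^d` on a (compact, Hausdorff) abelian pro-`p` group -/
structure Act (p : ℕ) [Fact p.Prime] (d : ℕ) (X : Type u) [AddCommGroup X]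
    [TopologicalSpace X] where
  σ : (Fin d → ℤ_[p]) → AddMonoid.End X
  zero : σ 0 = 1
  add : ∀ a b, σ (a + b) = σ a * σ b
  cont : Continuous fun z : (Fin d → ℤ_[p]) × X => σ z.1 z.2
  basis : ∀ W : Set X, IsOpen W → (0 : X) ∈ W → ∃ U : AddSubgroup X, IsOpen (U : Set X) ∧
    (U : Set X) ⊆ W ∧ (∀ k, ∀ x ∈ U, σ k x ∈ U) ∧ ∃ n : ℕ, ∀ x : X, p ^ n • x ∈ U

section

variable {p : ℕ} [Fact p.Prime] {d : ℕ} {X : Type u} [AddCommGroup X] [TopologicalSpace X]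
  (b : Act p d X)

/-- the endomorphism `k - 1` -/
def Act.T (k : Fin d → ℤ_[p]) : AddMonoid.End X := b.σ k - 1

/-- `k` is small on `X`: `T_k^n (p^i X) ⊆ p^(i+1) X` for some `i` and `n` -/
def Small (k : Fin d → ℤ_[p]) : Prop :=
  ∃ i n : ℕ, ∀ x : X, ∃ y : X, (b.T k ^ n) (p ^ i • x) = p ^ (i + 1) • y

/-- `Ψ_n(g) = Σ_{i<p} g^(i p^n)` as an endomorphism of `X` -/
def Psi (g : Fin d → ℤ_[p]) (n : ℕ) : AddMonoid.End X :=
  ∑ i ∈ Finset.range p, b.σ ((i * p ^ n) • g)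

/-! ### the formulas -/

/-- `T_k X ⊆ T_u X` -/
def Le0 (u k : Fin d → ℤ_[p]) : Prop := ∀ x : X, ∃ y : X, b.T k x = b.T u y

/-- `T_k X ⊆ T_u X + p X` -/
def Le1 (u k : Fin d → ℤ_[p]) : Prop := ∀ x : X, ∃ y z : X, b.T k x = b.T u y + p • z

/-- `T_k X ⊆ p X` -/
def Sm1 (k : Fin d → ℤ_[p]) : Prop := ∀ x : X, ∃ z : X, b.T k x = p • z

/-- `x ∈ D_k`: `x = x' + T_l x''` with `T_k x' ∈ T_{k^p} X` -/
def DD (l k : Fin d → ℤ_[p]) (x : X) : Prop :=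
  ∃ x' x'' z : X, x = x' + b.T l x'' ∧ b.T k x' = b.T (p • k) z

/-- the set of times -/
def II (u₀ u₁ l : Fin d → ℤ_[p]) (yT : X) (k : Fin d → ℤ_[p]) : Prop :=
  Le0 b u₀ k ∧ Le1 b k u₁ ∧ ¬ Sm1 b k ∧ ¬ DD b l k yT

/-- the time `h` is before the time `k` -/
def Bf (t : ℕ) (h k : Fin d → ℤ_[p]) : Prop := Le1 b (p ^ t • h) k

/-- the relation coded by `x` -/
def RR (t : ℕ) (u₀ u₁ l : Fin d → ℤ_[p]) (yT yV x : X) (k h : Fin d → ℤ_[p]) : Prop :=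
  ∀ k', II b u₀ u₁ l yT k' → ¬ Bf b t k k' → ¬ Bf b t k' k →
    ∃ h', II b u₀ u₁ l yT h' ∧ ¬ Bf b t h h' ∧ ¬ Bf b t h' h ∧ DD b l k' (x - b.σ h' yV)

/-- The interface: for every `w` there are parameters such that the times form a finite clock
`0, …, w`, and arbitrary functions `c` with `c n < n` are coded by elements of `X`. -/
def Eng : Prop :=
  ∃ t : ℕ, 1 ≤ t ∧ ∀ w : ℕ, ∃ (u₀ u₁ l : Fin d → ℤ_[p]) (yT yV : X) (ν : (Fin d → ℤ_[p]) → ℕ),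
    (∀ k, II b u₀ u₁ l yT k → ν k ≤ w) ∧
    (∀ n ≤ w, ∃ k, II b u₀ u₁ l yT k ∧ ν k = n) ∧
    (∀ h k, II b u₀ u₁ l yT h → II b u₀ u₁ l yT k → (Bf b t h k ↔ ν h < ν k)) ∧
    ∀ c : ℕ → ℕ, (∀ n, 1 ≤ n → n ≤ w → c n < n) → ∃ x : X, ∀ k h, II b u₀ u₁ l yT k →
      II b u₀ u₁ l yT h → 1 ≤ ν k → (RR b t u₀ u₁ l yT yV x k h ↔ ν h = c (ν k))

/-! ### the two kinds of minimal configurations -/

/-- minimal configurations killed by `p` -/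
structure HypE : Prop where
  kill : ∀ x : X, p • x = 0
  faith : ∀ k, b.σ k = 1 → k = 0
  pos : 0 < d
  dom : ∀ u, u ≠ 0 → ∃ m : ℕ, ∀ k, (∀ x, ∃ y, b.T (p ^ m • k) x = b.T u y) ∧
    ∀ x, b.T u x = 0 → b.T (p ^ m • k) x = 0
  unb : ∀ u, u ≠ 0 → ∀ c : ℕ, ∃ x, (b.T u ^ (c + 1)) x = 0 ∧ (b.T u ^ c) x ≠ 0

/-- minimal configurations with an element which is not small, if there are no configurations of
the first kind -/
structure HypW : Prop where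
  faith : ∀ k, b.σ k = 1 → k = 0
  big : ∃ g, ¬ Small b g
  dom : ∀ u, ¬ Small b u → ∃ m : ℕ, ∀ k x, ∃ y, b.T (p ^ m • k) x = b.T u y
  sm2 : ∀ h, Small b h → ∀ x, ∃ y, b.T h x = p ^ 2 • y
  quo : ∀ h, h ≠ 0 → ∀ g, ∃ i n : ℕ, ∀ x, ∃ y z,
    (b.T g ^ n) (p ^ i • x) = p ^ (i + 1) • y + b.T h z
  bdd : ∀ g, ∀ i : ℕ, ∃ n : ℕ, ∀ x, (∃ y, (b.T g ^ (n + 1)) (p ^ i • x) = p ^ (i + 1) • y) →
    ∃ y, (b.T g ^ n) (p ^ i • x) = p ^ (i + 1) • y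

/-- the second kind, in coordinates: the small elements are those whose first `s` coordinates
vanish -/
structure HypW2 (s : ℕ) : Prop where
  s_pos : 0 < s
  s_le : s ≤ d
  faith : ∀ k, b.σ k = 1 → k = 0
  small : ∀ k, Small b k ↔ ∀ i : Fin d, (i : ℕ) < s → k i = 0
  dom : ∀ u, ¬ Small b u → ∃ m : ℕ, ∀ k x, ∃ y, b.T (p ^ m • k) x = b.T u y
  sm2 : ∀ h, Small b h → ∀ x, ∃ y, b.T h x = p ^ 2 • y
  quo : ∀ h, h ≠ 0 → ∀ g, ∃ i n : ℕ, ∀ x, ∃ y z,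
    (b.T g ^ n) (p ^ i • x) = p ^ (i + 1) • y + b.T h z
  bdd : ∀ g, ∀ i : ℕ, ∃ n : ℕ, ∀ x, (∃ y, (b.T g ^ (n + 1)) (p ^ i • x) = p ^ (i + 1) • y) →
    ∃ y, (b.T g ^ n) (p ^ i • x) = p ^ (i + 1) • y

end

end

end Pool.Agent.Helper30.Full
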