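import Pool.Agent.Helper30.Full.Final0
import Pool.Agent.Helper85.ProF.Und

/-!
# Finitely generated soluble torsion-free pro-p groups with decidable theory have finite rank
-/

set_option autoImplicit false

namespace Pool.Agent.Helper30.Full

open Pool.Agent.Helper85.ProP Pool.Agent.Helper30.ProP

universe u

theorem final (p : ℕ) [Fact p.Prime] (G : Type u) [Group G] [TopologicalSpace G]
    [IsTopologicalGroup G] [CompactSpace G] [T2Space G] [TotallyDisconnectedSpace G]
    (hPP : PP p G) (hfg : FGG G) (hsol : Group.IsSolvable G)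
    (htf : ∀ (g : G) (n : ℕ), 0 < n → g ^ n = 1 → g = 1) (hdec : DecTh G) : FinRank G :=
  final0 Pool.Agent.Helper85.ProF.stmtUnd p G hPP hfg htf hsol hdec

end Pool.Agent.Helper30.Full
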