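import Pool.Agent.Helper30.Full.GoalsG
import Pool.Agent.Helper30.ProP.Series

/-!
# The definable abelian normal subgroup
-/

set_option autoImplicit false
set_option linter.unusedSectionVars false

namespace Pool.Agent.Helper30.Full

open Pool.Agent.Helper85.ProP Pool.Agent.Helper30.ProP Function

universe u

section

variable {G : Type u} [Group G]

/-- the values of the derived words -/
def WV : ℕ → G → Prop
  | 0, _ => True
  | i + 1, x => ∃ a b, WV i a ∧ WV i b ∧ x = cm a b

lemma WV_conj (i : ℕ) (g x : G) (h : WV i x) : WV i (g * x * g⁻¹) := by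
  induction i generalizing x with
  | zero => trivial
  | succ i ih =>
    obtain ⟨a, b, ha, hb, rfl⟩ := h
    exact ⟨g * a * g⁻¹, g * b * g⁻¹, ih a ha, ih b hb, (cm_conj' g a b).symm⟩

/-- the subgroup generated by the values -/
def WS (G : Type u) [Group G] (i : ℕ) : Subgroup G := Subgroup.closure {x : G | WV i x}

instance WS_normal (i : ℕ) : (WS G i).Normal := by
  refine ⟨fun x hx g => ?_⟩
  induction hx using Subgroup.closure_induction with
  | mem x hx => exact Subgroup.subset_closure (WV_conj i g x hx)
  | one => simp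
  | mul x y _ _ h1 h2 =>
    have : g * (x * y) * g⁻¹ = (g * x * g⁻¹) * (g * y * g⁻¹) := by group
    rw [this]; exact (WS G i).mul_mem h1 h2
  | inv x _ h =>
    have : g * x⁻¹ * g⁻¹ = (g * x * g⁻¹)⁻¹ := by group
    rw [this]; exact (WS G i).inv_mem h

lemma derived_le_WS (i : ℕ) : derivedSeries G i ≤ WS G i := by
  induction i with
  | zero => exact fun x _ => Subgroup.subset_closure trivial
  | succ i ih =>
    rw [derivedSeries_succ]
    refine (Subgroup.commutator_mono ih ih).trans ?_
    rw [Subgroup.commutator_le]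
    -- modulo `WS (i+1)` the values commute
    have key : ∀ x ∈ WS G i, ∀ y ∈ WS G i, cm x y ∈ WS G (i + 1) := by
      have k1 : ∀ x, WV i x → ∀ y ∈ WS G i, cm x y ∈ WS G (i + 1) := by
        intro x hx y hy
        induction hy using Subgroup.closure_induction with
        | mem y hy => exact Subgroup.subset_closure ⟨x, y, hx, hy, rfl⟩
        | one => rw [cm_one_right]; exact Subgroup.one_mem _
        | mul y z _ _ h1 h2 =>
          have : cm x (y * z) = cm x y * (y * cm x z * y⁻¹) := by unfold cm; group
          rw [this]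
          exact Subgroup.mul_mem _ h1 (Subgroup.Normal.conj_mem inferInstance _ h2 y)
        | inv y _ h =>
          have : cm x y⁻¹ = y⁻¹ * (cm x y)⁻¹ * y := by unfold cm; group
          rw [this]
          have h3 := Subgroup.Normal.conj_mem (H := WS G (i + 1)) inferInstance _
            (Subgroup.inv_mem _ h) y⁻¹
          rwa [inv_inv] at h3
      intro x hx y hy
      induction hx using Subgroup.closure_induction with
      | mem x hx => exact k1 x hx y hy
      | one => rw [cm_one_left]; exact Subgroup.one_mem _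
      | mul x z _ _ h1 h2 =>
        rw [cm_mul_left]
        exact Subgroup.mul_mem _ (Subgroup.Normal.conj_mem inferInstance _ h2 x) h1
      | inv x _ h =>
        rw [cm_inv_left]
        have h3 := Subgroup.Normal.conj_mem (H := WS G (i + 1)) inferInstance _
          (Subgroup.inv_mem _ h) x⁻¹
        rwa [inv_inv] at h3
    exact fun x hx y hy => key x hx y hy

lemma WV_mem_derived (i : ℕ) (x : G) (h : WV i x) : x ∈ derivedSeries G i := by
  induction i generalizing x with
  | zero => trivial
  | succ i ih =>
    obtain ⟨a, b, ha, hb, rfl⟩ := h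
    rw [derivedSeries_succ]
    exact Subgroup.commutator_mem_commutator (ih a ha) (ih b hb)

lemma d_WV (i : ℕ) : D1 0 (fun _ : ℕ → G => WV i) where
  dep _ _ _ _ := rfl
  df := by
    induction i with
    | zero =>
      intro n _ s _
      exact DF.true
    | succ i ih =>
      intro n _ s hs
      show DF n (fun v => ∃ a b, WV i a ∧ WV i b ∧ s v = cm a b)
      refine DF.ex (R := fun v a => ∃ b, WV i a ∧ WV i b ∧ s v = cm a b) ?_ ?_
      · intro v z w; rw [hs.upd le_rfl]
      · refine DF.ex (R := fun v b => WV i (v n) ∧ WV i b ∧ s v = cm (v n) b) ?_ ?_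
        · intro v z w; rw [hs.upd (Nat.le_succ n), update_of_ne (by omega)]
        · exact (ih _ (Nat.zero_le _) _ (TF.last n).succ).and
            ((ih _ (Nat.zero_le _) _ (TF.last _)).and
              (DF.eq hs.succ.succ ((TF.last n).succ.cm (TF.last _))))

end

theorem stmtVV : StmtVV.{u} := by
  intro G _ _ _ _ l hl
  set D : Subgroup G := Subgroup.centralizer {x : G | WV l x} with hD
  have hDn : D.Normal := by
    refine ⟨fun x hx g => ?_⟩
    rw [hD, Subgroup.mem_centralizer_iff] at hx ⊢
    intro y hy
    have h1 := hx (g⁻¹ * y * g⁻¹⁻¹) (WV_conj l g⁻¹ y hy)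
    rw [inv_inv] at h1
    calc y * (g * x * g⁻¹) = g * (g⁻¹ * y * g * x) * g⁻¹ := by group
      _ = g * (x * (g⁻¹ * y * g)) * g⁻¹ := by rw [h1]
      _ = g * x * g⁻¹ * y := by group
  have hDab : derivedSeries G l ≤ D := by
    intro x hx
    rw [hD, Subgroup.mem_centralizer_iff]
    intro y hy
    have h1 : cm y x ∈ derivedSeries G (l + 1) := by
      rw [derivedSeries_succ]
      exact Subgroup.commutator_mem_commutator (WV_mem_derived l y hy) hx
    rw [hl, Subgroup.mem_bot] at h1
    have h2 : y * x * y⁻¹ * x⁻¹ = 1 := h1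
    rw [mul_inv_eq_one, mul_inv_eq_iff_eq_mul] at h2
    exact h2
  have hDc : ∀ x ∈ derivedSeries G l, ∀ y ∈ D, y * x = x * y := by
    intro x hx y hy
    have h1 : WS G l ≤ Subgroup.centralizer {y} := by
      unfold WS
      rw [Subgroup.closure_le]
      intro z hz
      rw [SetLike.mem_coe, Subgroup.mem_centralizer_iff]
      intro y' hy'
      rw [Set.mem_singleton_iff] at hy'
      subst hy'
      rw [hD, Subgroup.mem_centralizer_iff] at hy
      exact (hy z hz).symm
    have h2 := h1 (derived_le_WS l hx)
    rw [Subgroup.mem_centralizer_iff] at h2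
    exact h2 y rfl
  refine ⟨D ⊓ Subgroup.centralizer (D : Set G), ?_, ?_, ?_, ?_, ?_⟩
  · have : (Subgroup.centralizer (D : Set G)).Normal := inferInstance
    exact Subgroup.normal_inf_normal _ _
  · rw [Subgroup.coe_inf]
    exact (Set.isClosed_centralizer _).inter (Set.isClosed_centralizer _)
  · intro a ha b hb
    exact (Subgroup.mem_centralizer_iff.1 hb.2) a ha.1
  · have d1 : D1 0 (fun _ : ℕ → G => (· ∈ D)) := by
      refine ⟨fun _ _ _ _ => rfl, fun n _ s hs => ?_⟩
      refine DF.of_iff (P := fun v => ∀ y, WV l y → y * s v = s v * y) ?_ (fun v => by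
        rw [hD, Subgroup.mem_centralizer_iff]; rfl)
      refine DF.all (R := fun v y => WV l y → y * s v = s v * y) ?_ ?_
      · intro v z w; rw [hs.upd le_rfl]
      · exact ((d_WV l).df _ (Nat.zero_le _) _ (TF.last n)).imp
          (DF.eq ((TF.last n).mul hs.succ) (hs.succ.mul (TF.last n)))
    refine ⟨fun _ _ _ _ => rfl, fun n hn s hs => ?_⟩
    refine DF.of_iff (P := fun v => s v ∈ D ∧ ∀ y, y ∈ D → y * s v = s v * y) ?_ (fun v => by
      rw [Subgroup.mem_inf, Subgroup.mem_centralizer_iff]; rfl)
    refine (d1.df n hn s hs).and (DF.all (R := fun v y => y ∈ D → y * s v = s v * y) ?_ ?_)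
    · intro v z w; rw [hs.upd le_rfl]
    · exact (d1.df _ (Nat.zero_le _) _ (TF.last n)).imp
        (DF.eq ((TF.last n).mul hs.succ) (hs.succ.mul (TF.last n)))
  · exact fun x hx => ⟨hDab hx, Subgroup.mem_centralizer_iff.2 fun y hy => hDc x hx y hy⟩

end Pool.Agent.Helper30.Full
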