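import Pool.Agent.Helper30.Full.Asm
import Pool.Agent.Helper30.Full.VV
import Pool.Agent.Helper9.Full.E1
import Pool.Agent.Helper9.Full.W5
import Pool.Agent.Helper9.Full.GX
import Pool.Agent.Helper90.Full.E2
import Pool.Agent.Helper90.Full.Sq
import Pool.Agent.Helper75.Full.E3
import Pool.Agent.Helper75.Full.Ext
import Pool.Agent.Helper31.Full.W0
import Pool.Agent.Helper45.Full.W1
import Pool.Agent.Helper6.Full.W2
import Pool.Agent.Helper10.Full.W3
import Pool.Agent.Helper33.Full.W4
import Pool.Agent.Helper33.Full.Lin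
import Pool.Agent.Helper96.Full.Pad
import Pool.Agent.Helper96.Full.B6
import Pool.Agent.Helper67.Full.W6
import Pool.Agent.Helper67.Full.C1
import Pool.Agent.Helper50.FW.W7
import Pool.Agent.Helper99.Full.ME
import Pool.Agent.Helper99.Full.AG
import Pool.Agent.Helper39.FullMW.Main
import Pool.Agent.Helper41.Full.TR
import Pool.Agent.Helper41.Full.NT
import Pool.Agent.Helper47.Full.BaireWF
import Pool.Agent.Helper36.QD.QD
import Pool.Agent.Helper93.Full.CE
import Pool.Agent.Helper22.Full.QF

/-!
# The theorem, from the logic packet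
-/

set_option autoImplicit false

namespace Pool.Agent.Helper30.Full

open Pool.Agent.Helper85.ProP Pool.Agent.Helper30.ProP

universe u

theorem final0 (hUnd : StmtUnd.{u})
    (p : ℕ) [Fact p.Prime] (G : Type u) [Group G] [TopologicalSpace G] [IsTopologicalGroup G]
    [CompactSpace G] [T2Space G] [TotallyDisconnectedSpace G] (hPP : PP p G) (hfg : FGG G)
    (htf : ∀ (g : G) (n : ℕ), 0 < n → g ^ n = 1 → g = 1) (hsol : Group.IsSolvable G)
    (hdec : DecTh G) : FinRank G :=
  main Helper9.Full.e1 Helper90.Full.stmtE2 Helper75.Full.stmtE3 Helper31.Full.stmtW0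
    Helper45.Full.stmtW1 Helper6.Full.pf_W2 (Helper33W4.stmtW4 Helper10.Full.pf_W3
    Helper90.Full.stmtSq) Helper90.Full.stmtSq
    (Helper96.Full.stmtPad Helper10.Full.pf_W3 Helper90.Full.stmtSq) Helper9.Full.w5
    Helper67.FullW6.stmtW6 Helper50.FW.pf_StmtW7
    (Helper67.FullC1.stmtC1 Helper93.Full.stmtCE) Helper9.Full.gx Helper99.Full.stmtAG
    Helper47.Full.wf hUnd (Helper99.Full.stmtME Helper47.Full.baire)
    (Helper39.FullMW.pf_StmtMW Helper47.Full.baire) Helper41.Full.stmtTR Helper36.QD.stmtQD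
    Helper75.Full.stmtExt Helper22.Full.stmtQF stmtVV
    (Helper96.Full.stmtB6 Helper33Lin.stmtLin Helper41.Full.stmtNT) p G hPP hfg htf hsol hdec

end Pool.Agent.Helper30.Full
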