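import Pool.Agent.Helper30.Full.Quot

/-!
# Statements of the building blocks: modules killed by `p`
-/

set_option autoImplicit false

namespace Pool.Agent.Helper30.Full

universe u

section

variable {p : ℕ} [Fact p.Prime] {d : ℕ} {X : Type u} [AddCommGroup X] [TopologicalSpace X]

/-- uniform domination by the elements which are not divisible by `p` -/
def UniE (b : Act p d X) (m : ℕ) : Prop :=
  ∀ u : Fin d → ℤ_[p], (∀ u', u ≠ p • u') → ∀ k, (∀ x, ∃ y, b.T (p ^ m • k) x = b.T u y) ∧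
    ∀ x, b.T u x = 0 → b.T (p ^ m • k) x = 0

/-- existence of pure elements of large order -/
def PureE (b : Act p d X) : Prop :=
  ∀ g : Fin d → ℤ_[p], g ≠ 0 → ∀ N : ℕ, ∃ n, N ≤ n ∧ ∃ e : X, (b.T g ^ (n + 1)) e = 0 ∧
    ∀ x, (b.T g ^ n) e ≠ (b.T g ^ (n + 1)) x

end

/-- E1 -/
def StmtE1 : Prop :=
  ∀ (p : ℕ) [Fact p.Prime] (d : ℕ) (X : Type u) [AddCommGroup X] [TopologicalSpace X]
    [IsTopologicalAddGroup X] [CompactSpace X] [T2Space X] (b : Act p d X), HypE b →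
    ∃ m : ℕ, UniE b m

/-- E2 -/
def StmtE2 : Prop :=
  ∀ (p : ℕ) [Fact p.Prime] (d : ℕ) (X : Type u) [AddCommGroup X] [TopologicalSpace X]
    [IsTopologicalAddGroup X] [CompactSpace X] [T2Space X] (b : Act p d X), HypE b → PureE b

/-- E3 -/
def StmtE3 : Prop :=
  ∀ (p : ℕ) [Fact p.Prime] (d : ℕ) (X : Type u) [AddCommGroup X] [TopologicalSpace X]
    [IsTopologicalAddGroup X] [CompactSpace X] [T2Space X] (b : Act p d X), HypE b →
    ∀ m : ℕ, UniE b m → PureE b → Eng b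

theorem engE (h1 : StmtE1.{u}) (h2 : StmtE2.{u}) (h3 : StmtE3.{u}) (p : ℕ) [Fact p.Prime] (d : ℕ)
    (X : Type u) [AddCommGroup X] [TopologicalSpace X] [IsTopologicalAddGroup X] [CompactSpace X]
    [T2Space X] (b : Act p d X) (hb : HypE b) : Eng b := by
  obtain ⟨m, hm⟩ := h1 p d X b hb
  exact h3 p d X b hb m hm (h2 p d X b hb)

end Pool.Agent.Helper30.Full
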