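import Pool.Agent.Helper30.Full.Car
import Pool.Agent.Helper30.ProP.Goals

/-!
# Statement of the logic part: undecidability from the interface
-/

set_option autoImplicit false

namespace Pool.Agent.Helper30.Full

open Pool.Agent.Helper85.ProP

universe u

/-- the carrier of a group acting on itself by conjugation -/
abbrev carG (p : ℕ) (G : Type u) [Group G] : Car.{u, u} where
  A := G
  X := G
  act g x := g * x * g⁻¹
  T g x := cm g x
  sub x y := x * y⁻¹
  pX x := x ^ p
  pA g := g ^ p

section

variable {G : Type u} [Group G]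

/-- the preimage of the centre of the centralizer of `g₀` in `G / C_G(V)` -/
def S0 (V : Subgroup G) (g₀ s : G) : Prop :=
  cm s g₀ ∈ Subgroup.centralizer (V : Set G) ∧
    ∀ t : G, cm t g₀ ∈ Subgroup.centralizer (V : Set G) → cm s t ∈ Subgroup.centralizer (V : Set G)

/-- the basic configuration: the `p ^ n`-th powers of the elements of `S0` acting on `V` -/
def baseG (p n : ℕ) (V : Subgroup G) (g₀ : G) : Cf (carG p G) where
  S s := ∃ r, S0 V g₀ r ∧ s = r ^ p ^ n
  X1 x := x ∈ V
  X2 x := x = 1

/-- the parameters of a program are admissible -/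
def Adm (p n : ℕ) (V : Subgroup G) (g₀ : G) (l : List (Op × G × G)) : Prop :=
  ∀ o ∈ l, (baseG p n V g₀).S o.2.1 ∧ o.2.2 ∈ V

end

/-- UND: Undecidability from the interface. `hwf`: for all admissible parameters there are no
infinite descending sequences of times; `heng`: for some parameters the interface holds. -/
def StmtUnd : Prop :=
  ∀ (p : ℕ) [Fact p.Prime] (G : Type u) [Group G] (V : Subgroup G),
    D1 0 (fun _ : ℕ → G => (· ∈ V)) → ∀ n t : ℕ,
    (∀ (g₀ : G) (l : List (Op × G × G)), Adm p n V g₀ l →
      ¬ ∃ h : ℕ → G, ∀ i, (run (C := carG p G) l (baseG p n V g₀)).S (h i) ∧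
        ¬ cSm1 (run (C := carG p G) l (baseG p n V g₀)) (h i) ∧
        cBf (run (C := carG p G) l (baseG p n V g₀)) t (h (i + 1)) (h i)) →
    (∃ (g₀ : G) (l : List (Op × G × G)), Adm p n V g₀ l ∧
      EngC (run (C := carG p G) l (baseG p n V g₀)) (baseG p n V g₀).S (· ∈ V) t) →
    ¬ DecTh G

/-- QD: decidability passes to quotients by definable normal subgroups. -/
def StmtQD : Prop :=
  ∀ (G : Type u) [Group G] (N : Subgroup G) [N.Normal], D1 0 (fun _ : ℕ → G => (· ∈ N)) →
    DecTh G → DecTh (G ⧸ N)

end Pool.Agent.Helper30.Full
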