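import Pool.Agent.Helper30.Full.Basic

/-!
# Quotients and subgroups of modules with an action of `ℤ_p^d`; change of the acting group
-/

set_option autoImplicit false
set_option linter.unusedSectionVars false

namespace Pool.Agent.Helper30.Full

universe u

noncomputable section

variable {p : ℕ} [Fact p.Prime] {d : ℕ} {X : Type u} [AddCommGroup X] [TopologicalSpace X]
  [IsTopologicalAddGroup X] (b : Act p d X)

/-- the action on the quotient by a closed invariant subgroup -/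
def Act.quot (Y : AddSubgroup X) (inv : ∀ k, ∀ y ∈ Y, b.σ k y ∈ Y) : Act p d (X ⧸ Y) where
  σ k := QuotientAddGroup.map Y Y (b.σ k) (fun y hy => inv k y hy)
  zero := by
    refine AddMonoidHom.ext fun x => ?_
    obtain ⟨x, rfl⟩ := QuotientAddGroup.mk_surjective x
    show ((b.σ 0 x : X) : X ⧸ Y) = x
    rw [b.zero]; rfl
  add k l := by
    refine AddMonoidHom.ext fun x => ?_
    obtain ⟨x, rfl⟩ := QuotientAddGroup.mk_surjective x
    show ((b.σ (k + l) x : X) : X ⧸ Y) = ((b.σ k (b.σ l x) : X) : X ⧸ Y)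
    rw [b.add]; rfl
  cont := by
    have h1 : Continuous fun z : (Fin d → ℤ_[p]) × X => ((b.σ z.1 z.2 : X) : X ⧸ Y) :=
      continuous_quot_mk.comp b.cont
    have h3 : IsOpenQuotientMap (Prod.map (id : (Fin d → ℤ_[p]) → _) (fun x : X => (x : X ⧸ Y))) :=
      IsOpenQuotientMap.prodMap IsOpenQuotientMap.id QuotientAddGroup.isOpenQuotientMap_mk
    exact h3.isQuotientMap.continuous_iff.2 h1
  basis W hW h0 := by
    obtain ⟨U, hU, hUW, hinv, n, hn⟩ := b.basis ((fun x : X => (x : X ⧸ Y)) ⁻¹' W)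
      (hW.preimage continuous_quot_mk) h0
    refine ⟨U.map (QuotientAddGroup.mk' Y), ?_, ?_, ?_, n, ?_⟩
    · exact QuotientAddGroup.isOpenMap_coe _ hU
    · rintro _ ⟨u, hu, rfl⟩
      exact hUW hu
    · rintro k _ ⟨u, hu, rfl⟩
      exact ⟨b.σ k u, hinv k u hu, rfl⟩
    · intro x
      obtain ⟨x, rfl⟩ := QuotientAddGroup.mk_surjective x
      exact ⟨p ^ n • x, hn x, rfl⟩

lemma quot_σ (Y : AddSubgroup X) (inv : ∀ k, ∀ y ∈ Y, b.σ k y ∈ Y) (k : Fin d → ℤ_[p]) (x : X) :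
    (b.quot Y inv).σ k (x : X ⧸ Y) = ((b.σ k x : X) : X ⧸ Y) := rfl

lemma quot_T (Y : AddSubgroup X) (inv : ∀ k, ∀ y ∈ Y, b.σ k y ∈ Y) (k : Fin d → ℤ_[p]) (x : X) :
    (b.quot Y inv).T k (x : X ⧸ Y) = ((b.T k x : X) : X ⧸ Y) := rfl

lemma quot_Tpow (Y : AddSubgroup X) (inv : ∀ k, ∀ y ∈ Y, b.σ k y ∈ Y) (k : Fin d → ℤ_[p]) (n : ℕ)
    (x : X) : ((b.quot Y inv).T k ^ n) (x : X ⧸ Y) = (((b.T k ^ n) x : X) : X ⧸ Y) := by
  induction n with
  | zero => rfl
  | succ n ih =>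
    have h1 : ((b.quot Y inv).T k ^ (n + 1)) (x : X ⧸ Y) =
      (b.quot Y inv).T k (((b.quot Y inv).T k ^ n) (x : X ⧸ Y)) := by rw [pow_succ']; rfl
    have h2 : (b.T k ^ (n + 1)) x = b.T k ((b.T k ^ n) x) := by rw [pow_succ']; rfl
    rw [h1, ih, h2, quot_T]

/-- the action on an invariant subgroup -/
def Act.sub (Y : AddSubgroup X) (inv : ∀ k, ∀ y ∈ Y, b.σ k y ∈ Y) : Act p d Y where
  σ k :=
    { toFun := fun y => ⟨b.σ k y, inv k y y.2⟩
      map_zero' := by ext; exact map_zero _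
      map_add' := fun x y => by ext; exact map_add _ _ _ }
  zero := by
    ext x
    show b.σ 0 x = x
    rw [b.zero]; rfl
  add k l := by
    ext x
    show b.σ (k + l) x = b.σ k (b.σ l x)
    rw [b.add]; rfl
  cont := by
    refine Continuous.subtype_mk ?_ _
    exact b.cont.comp (continuous_fst.prodMk (continuous_subtype_val.comp continuous_snd))
  basis W hW h0 := by
    obtain ⟨W', hW', rfl⟩ := isOpen_induced_iff.1 hW
    obtain ⟨U, hU, hUW, hinv, n, hn⟩ := b.basis W' hW' h0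
    refine ⟨U.comap Y.subtype, hU.preimage continuous_subtype_val, fun x hx => hUW hx,
      fun k x hx => hinv k x hx, n, fun x => hn x⟩

lemma sub_σ (Y : AddSubgroup X) (inv : ∀ k, ∀ y ∈ Y, b.σ k y ∈ Y) (k : Fin d → ℤ_[p]) (x : Y) :
    (((b.sub Y inv).σ k x : Y) : X) = b.σ k x := rfl

lemma sub_T (Y : AddSubgroup X) (inv : ∀ k, ∀ y ∈ Y, b.σ k y ∈ Y) (k : Fin d → ℤ_[p]) (x : Y) :
    (((b.sub Y inv).T k x : Y) : X) = b.T k x := rfl

/-- change of the acting group -/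
def Act.pull {e : ℕ} (f : (Fin e → ℤ_[p]) →ₗ[ℤ_[p]] (Fin d → ℤ_[p])) : Act p e X where
  σ k := b.σ (f k)
  zero := by rw [map_zero, b.zero]
  add k l := by rw [map_add, b.add]
  cont := by
    have hf : Continuous f := f.continuous_on_pi
    exact b.cont.comp ((hf.comp continuous_fst).prodMk continuous_snd)
  basis W hW h0 := by
    obtain ⟨U, hU, hUW, hinv, hn⟩ := b.basis W hW h0
    exact ⟨U, hU, hUW, fun k x hx => hinv _ x hx, hn⟩

end

end Pool.Agent.Helper30.Full
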